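import Pool.Agent.Helper40.JL.Young3

/-!
# Jordan types at one eigenvalue: the generic type (helper40)
-/

set_option autoImplicit false

namespace Pool.Agent.Helper40.JL

open Polynomial Pool.Agent.Helper40.ZO Pool.Agent.Helper40.LL MeasureTheory

variable {K V : Type*} [Field K] [AddCommGroup V] [Module K V] [FiniteDimensional K V]

/-- The number of Jordan blocks of `T` at `l` of size larger than `j`. -/
noncomputable def nb (T : Module.End K V) (l : K) (j : ℕ) : ℕ :=
  Module.finrank K (LinearMap.ker (T - algebraMap K (Module.End K V) l) ⊓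
    LinearMap.range ((T - algebraMap K (Module.End K V) l) ^ j) : Submodule K V)

variable [IsAlgClosed K] [CharZero K]

variable {P : Type*} [Group P] [TopologicalSpace P] [IsTopologicalGroup P] [CompactSpace P]
  [TotallyDisconnectedSpace P] [TopologicalSpace K] [IsTopologicalRing K] [T2Space K]

/-- The law for Jordan types. -/
theorem young_one (ρ : P →* Module.End K V)
    (hρ : ∀ (v : V) (f : Module.Dual K V), Continuous fun x => f (ρ x v)) :
    ∃ N : Subgroup P, N.Normal ∧ IsOpen (N : Set P) ∧ ∀ (c : P ⧸ N) (l : K), ∃ lam : ℕ → ℕ,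
      (∀ y : P, (y : P ⧸ N) = c → ∀ j : ℕ, ∑ i ∈ Finset.range j, lam i ≤
        Module.finrank K (LinearMap.ker ((ρ y - algebraMap K (Module.End K V) l) ^ j))) ∧
      (∀ ε : ℝ, 0 < ε → ∃ M : Subgroup P, M.Normal ∧ IsOpen (M : Set P) ∧
        ((Set.ncard {d : P ⧸ M | ∃ y : P, (y : P ⧸ M) = d ∧ (y : P ⧸ N) = c ∧
          ∃ j : ℕ, nb (ρ y) l j ≠ lam j} : ℕ) : ℝ) ≤ ε * Nat.card (P ⧸ M)) ∧
      ∀ A : Subgroup P, A.Normal → ActsSemisimply (ρ '' (A : Set P)) →
        ∀ x : P, (x : P ⧸ N) = c → IsOpen ((A ⊔ Subgroup.zpowers x).topologicalClosure : Set P) →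
          (∀ j : ℕ, lam j ≤ nb (ρ x) l j) ∧
          ∀ r : ℕ, (∀ X ∈ commutant ρ A, IsNilpotent X → X ^ r = 0) → lam r = 0 := by
  classical
  obtain ⟨n, hn⟩ : ∃ n, n = Module.finrank K V := ⟨_, rfl⟩
  let b := Module.finBasisOfFinrankEq K V hn.symm
  let ρ' : P →* Mat n K := (LinearMap.toMatrixAlgEquiv b : Module.End K V →* Mat n K).comp ρ
  have hρ'x : ∀ x, ρ' x = LinearMap.toMatrix b b (ρ x) := fun x => rfl
  have hρ'c : Continuous ρ' := by
    refine continuous_matrix fun i j => ?_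
    have h1 : (fun x => ρ' x i j) = fun x => (b.coord i) (ρ x (b j)) := by
      funext x
      rw [hρ'x, LinearMap.toMatrix_apply]
      rfl
    rw [h1]
    exact hρ _ _
  have hvalc : ∀ f : MvPolynomial (Fin n × Fin n) K, Continuous fun y => val (ρ' y) f := by
    intro f
    have h1 : Continuous fun x : P => (fun k : Fin n × Fin n => ρ' x k.1 k.2) :=
      continuous_pi fun k => hρ'c.matrix_elem k.1 k.2
    exact (MvPolynomial.continuous_eval f).comp h1
  obtain ⟨N, hNn, hNo, hmin⟩ := exists_min ρ'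
  letI : MeasurableSpace P := borel P
  haveI : BorelSpace P := ⟨rfl⟩
  have hnull : ∀ (μ : Measure P), μ.IsHaarMeasure →
      ∀ (D : MvPolynomial (Fin n × Fin n) K) (x₀ : P), val (ρ' x₀) D ≠ 0 →
        μ {z | z * x₀⁻¹ ∈ N ∧ val (ρ' z) D = 0} = 0 := fun μ hμ D x₀ h =>
    null_of_poly μ ρ' hρ'c hNo hmin (D := D) (x₀ := x₀) h
  have hclass : ∀ x y : P, (y : P ⧸ N) = (x : P ⧸ N) ↔ y * x⁻¹ ∈ N := by
    intro x y
    rw [eq_comm, QuotientGroup.eq]
    constructor
    · intro h
      have h3 := hNn.conj_mem _ h x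
      simpa [mul_assoc] using h3
    · intro h
      have h3 := hNn.conj_mem _ h x⁻¹
      simpa [mul_assoc] using h3
  refine ⟨N, hNn, hNo, ?_⟩
  intro c l
  obtain ⟨x₀, hx₀⟩ := QuotientGroup.mk_surjective c
  have hmk : ∀ y : P, (y : P ⧸ N) = c ↔ y * x₀⁻¹ ∈ N := by
    intro y
    rw [← hx₀]
    exact hclass x₀ y
  obtain ⟨kd, hkd⟩ : ∃ kd : ℕ → P → ℕ, ∀ j y, kd j y =
      Module.finrank K (LinearMap.ker ((ρ y - algebraMap K (Module.End K V) l) ^ j)) :=
    ⟨fun j y => _, fun _ _ => rfl⟩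
  have hex : ∀ j, ∃ y ∈ {y : P | (y : P ⧸ N) = c}, ∀ z ∈ {y : P | (y : P ⧸ N) = c},
      kd j y ≤ kd j z := fun j => exists_min_nat ⟨x₀, hx₀⟩ (kd j)
  choose m hmc hmmin using hex
  obtain ⟨κ, hκ⟩ : ∃ κ : ℕ → ℕ, ∀ j, κ j = kd j (m j) := ⟨fun j => kd j (m j), fun _ => rfl⟩
  have hκle : ∀ j (y : P), (y : P ⧸ N) = c → κ j ≤ kd j y := by
    intro j y hy
    rw [hκ]
    exact hmmin j y hy
  have hnb : ∀ j y, nb (ρ y) l j + kd j y = kd (j + 1) y := by
    intro j y
    rw [hkd, hkd]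
    exact blocks_eq _ j
  have hmono : ∀ j, κ j ≤ κ (j + 1) := by
    intro j
    have h1 := hκle j _ (hmc (j + 1))
    have h2 := hnb j (m (j + 1))
    rw [hκ (j + 1)]
    omega
  have hκ0 : κ 0 = 0 := by
    rw [hκ, hkd, pow_zero]
    have h1 : LinearMap.ker (1 : Module.End K V) = ⊥ := LinearMap.ker_id
    rw [h1, finrank_bot]
  obtain ⟨lam, hlam⟩ : ∃ lam : ℕ → ℕ, ∀ j, lam j + κ j = κ (j + 1) :=
    ⟨fun j => κ (j + 1) - κ j, fun j => Nat.sub_add_cancel (hmono j)⟩
  have hsum : ∀ j, ∑ i ∈ Finset.range j, lam i = κ j := by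
    intro j
    induction j with
    | zero => rw [Finset.sum_range_zero, hκ0]
    | succ j ih => rw [Finset.sum_range_succ, ih, add_comm, hlam]
  refine ⟨lam, ?_, ?_, ?_⟩
  · intro y hy j
    rw [hsum, ← hkd]
    exact hκle j y hy
  · intro ε hε
    -- the kernels stabilize
    have hstable : ∀ j, n ≤ j → ∀ y, kd j y = kd n y := by
      intro j hj y
      rw [hkd, hkd]
      have h1 := Module.End.ker_pow_eq_ker_pow_finrank_of_le
        (f := (ρ y - algebraMap K (Module.End K V) l)) (m := j) (by rw [← hn]; exact hj)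
      rw [h1, ← hn]
    have hκst : ∀ j, n ≤ j → κ j = κ n := by
      intro j hj
      refine le_antisymm ?_ ?_
      · have h1 := hκle j _ (hmc n)
        rw [hstable j hj, ← hκ] at h1
        exact h1
      · have h1 := hκle n _ (hmc j)
        rw [← hstable j hj, ← hκ] at h1
        exact h1
    have hE : ∀ j : Fin (n + 1), ∃ E : MvPolynomial (Fin n × Fin n) K,
        val (ρ' (m j)) E ≠ 0 ∧ ∀ y, val (ρ' y) E ≠ 0 → kd j y ≤ κ j := by
      intro j
      obtain ⟨E, h1, h2⟩ := ker_open b ((Polynomial.X - C l) ^ (j : ℕ)) ⊤ (ρ (m j))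
      refine ⟨E, h1, fun y hy => ?_⟩
      have h3 := h2 _ hy
      rw [inf_top_eq, inf_top_eq, map_pow, map_sub, aeval_X, aeval_C, map_pow, map_sub, aeval_X,
        aeval_C, ← hkd, ← hkd, ← hκ] at h3
      exact h3
    choose E hE1 hE2 using hE
    have hgood : ∀ y : P, (y : P ⧸ N) = c → (∀ j, val (ρ' y) (E j) ≠ 0) →
        ∀ j, nb (ρ y) l j = lam j := by
      intro y hy hyE
      have h1 : ∀ j, kd j y = κ j := by
        intro j
        rcases Nat.lt_or_ge j (n + 1) with hj | hj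
        · exact le_antisymm (hE2 ⟨j, hj⟩ y (hyE _)) (hκle j y hy)
        · rw [hstable j (by omega), hκst j (by omega)]
          exact le_antisymm (hE2 ⟨n, Nat.lt_succ_self n⟩ y (hyE _)) (hκle n y hy)
      intro j
      have h2 := hnb j y
      have h3 := hlam j
      rw [h1, h1] at h2
      omega
    let Z : Set P := ⋃ j : Fin (n + 1), {z | z * (m j)⁻¹ ∈ N ∧ val (ρ' z) (E j) = 0}
    have hZcl : IsClosed Z := by
      refine isClosed_iUnion_of_finite fun j => ?_
      refine IsClosed.inter ?_ ?_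
      · exact (Subgroup.isClosed_of_isOpen _ hNo).preimage (continuous_id.mul continuous_const)
      · exact isClosed_eq (hvalc (E j)) continuous_const
    let μ : Measure P := Measure.haarMeasure ⊤
    have hZ0 : μ Z = 0 := measure_iUnion_null fun j => hnull μ inferInstance (E j) (m j) (hE1 j)
    obtain ⟨M, hM1, hM2, hM3⟩ := cosets_of_null μ hZcl hZ0 hε
    refine ⟨M, hM1, hM2, le_trans ?_ hM3⟩
    haveI : Finite (P ⧸ M) := Subgroup.quotient_finite_of_isOpen M hM2
    refine Nat.cast_le.2 (Set.ncard_le_ncard ?_ (Set.toFinite _))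
    rintro d ⟨y, hyd, hyc, j, hj⟩
    refine ⟨y, ?_, hyd⟩
    by_contra hyZ
    refine hj (hgood y hyc ?_ j)
    intro i hi
    refine hyZ (Set.mem_iUnion.2 ⟨i, ?_, hi⟩)
    have h1 : (y : P ⧸ N) = (m i : P) := hyc.trans (hmc i).symm
    exact (hclass _ _).1 h1
  · intro A hAn hA x hxc hopen
    obtain ⟨X, hXC, hX, hXj⟩ := core ρ hρ b hρ'x hvalc hNo hnull hAn hA (l := l) hopen (κ := κ)
      (fun j z hz => by
        rw [← hkd]
        exact hκle j z (((hclass x z).2 hz).trans hxc))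
      (fun j => ⟨m j, (hclass x (m j)).1 ((hmc j).trans hxc.symm), by
        rw [← hkd, ← hκ]⟩)
    refine ⟨?_, ?_⟩
    · intro j
      obtain ⟨h1, h2⟩ := hXj j
      have h3 := Submodule.finrank_mono h2
      have h4 := hlam j
      unfold nb
      omega
    · intro r hr
      obtain ⟨h1, -⟩ := hXj r
      have h3 : (LinearMap.ker (ρ x - algebraMap K (Module.End K V) l) ⊓
          (LinearMap.ker X ⊓ LinearMap.range (X ^ r)) : Submodule K V) = ⊥ := by
        rw [hr X hXC hX, LinearMap.range_zero, inf_bot_eq, inf_bot_eq]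
      rw [h3, finrank_bot] at h1
      have h4 := hlam r
      omega

end Pool.Agent.Helper40.JL
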