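import Pool.Agent.Helper40.LL.Alg
import Pool.Agent.Helper40.ZO.Tr
import Pool.Agent.Helper40.ZO.Stab
import Pool.Agent.Helper40.ZO.JCA
import Pool.Agent.Helper40.ZO.Comm

/-!
# The nilpotent part of an automorphism of the commutant (helper40)

`V` is semisimple under `A`, `y` normalises `A`.  Then `ρ y = θ (1 + N)`, where `N` is a nilpotent
element of the commutant of `A` which commutes with `θ`, and every subspace stable under `A` and `θ`
has a complement stable under `A` and `θ`.
-/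

set_option autoImplicit false

namespace Pool.Agent.Helper40.JL

open Polynomial Pool.Agent.Helper40.ZO Pool.Agent.Helper40.LL

variable {K V : Type*} [Field K] [AddCommGroup V] [Module K V] [FiniteDimensional K V]

/-- A subspace stable under an invertible endomorphism is stable under its inverse. -/
theorem stable_inv {E : Type*} [AddCommGroup E] [Module K E] [FiniteDimensional K E]
    {f f' : Module.End K E} (h1 : f' * f = 1) (h2 : f * f' = 1) {W : Submodule K E}
    (hW : ∀ v ∈ W, f v ∈ W) : ∀ v ∈ W, f' v ∈ W := by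
  have hle : W.map f ≤ W := by
    rintro _ ⟨v, hv, rfl⟩
    exact hW v hv
  let e : E ≃ₗ[K] E := LinearEquiv.ofLinear f f' h2 h1
  have hfin : Module.finrank K (W.map f) = Module.finrank K W := e.finrank_map_eq W
  have heq : W.map f = W := Submodule.eq_of_le_of_finrank_eq hle hfin
  intro v hv
  rw [← heq] at hv
  obtain ⟨w, hw, rfl⟩ := hv
  have h3 : f' (f w) = (f' * f) w := rfl
  rw [h3, h1, Module.End.one_apply]
  exact hw

theorem ss_inv {E : Type*} [AddCommGroup E] [Module K E] [FiniteDimensional K E]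
    {f f' : Module.End K E} (h1 : f' * f = 1) (h2 : f * f' = 1) (hf : f.IsSemisimple) :
    f'.IsSemisimple := by
  rw [Module.End.isSemisimple_iff] at hf ⊢
  intro p hp
  rw [Module.End.mem_invtSubmodule_iff_forall_mem_of_mem] at hp
  obtain ⟨q, hq, hpq⟩ := hf p (by
    rw [Module.End.mem_invtSubmodule_iff_forall_mem_of_mem]
    exact stable_inv h2 h1 hp)
  rw [Module.End.mem_invtSubmodule_iff_forall_mem_of_mem] at hq
  refine ⟨q, ?_, hpq⟩
  rw [Module.End.mem_invtSubmodule_iff_forall_mem_of_mem]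
  exact stable_inv h1 h2 hq

/-- Conjugation by a semisimple invertible endomorphism is semisimple. -/
theorem ss_conj [IsAlgClosed K] [CharZero K] {s s' : Module.End K V} (h1 : s' * s = 1)
    (h2 : s * s' = 1) (hs : s.IsSemisimple) :
    Module.End.IsSemisimple (R := K) (M := Module.End K V)
      (LinearMap.mulLeft K s * LinearMap.mulRight K s') :=
  Module.End.IsSemisimple.mul_of_commute (LinearMap.commute_mulLeft_right _ _)
    (Comm_mulLeft hs) (Comm_mulRight (ss_inv h1 h2 hs))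

/-- Complements from the semisimplicity of the conjugation on the commutant. -/
theorem compl_of_conj {G : Type*} [Group G] (ρ : G →* Module.End K V) {A : Subgroup G}
    (hA : ActsSemisimply (ρ '' (A : Set G))) {θ θ' : Module.End K V} (h1 : θ' * θ = 1)
    (h2 : θ * θ' = 1) {L : Module.End K (Module.End K V)} (hL : L.IsSemisimple)
    (hLC : ∀ X ∈ commutant ρ A, L X ∈ commutant ρ A)
    (hLθ : ∀ X ∈ commutant ρ A, L X = θ * X * θ') {W : Submodule K V}
    (hWA : Stable (ρ '' (A : Set G)) W) (hWθ : ∀ v ∈ W, θ v ∈ W) :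
    ∃ W' : Submodule K V, Stable (ρ '' (A : Set G)) W' ∧ (∀ v ∈ W', θ v ∈ W') ∧
      IsCompl W W' := by
  have hWθ' := stable_inv h1 h2 hWθ
  let N : Submodule K (Module.End K V) :=
    { carrier := {X | X ∈ commutant ρ A ∧ (∀ v, X v ∈ W) ∧ ∀ v ∈ W, X v = 0}
      add_mem' := by
        rintro X Y ⟨h1, h2, h3⟩ ⟨h4, h5, h6⟩
        refine ⟨add_mem h1 h4, fun v => ?_, fun v hv => ?_⟩
        · exact W.add_mem (h2 v) (h5 v)
        · rw [LinearMap.add_apply, h3 v hv, h6 v hv, add_zero]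
      zero_mem' := ⟨zero_mem _, fun v => W.zero_mem, fun v _ => rfl⟩
      smul_mem' := by
        rintro r X ⟨h1, h2, h3⟩
        refine ⟨Submodule.smul_mem _ r h1, fun v => W.smul_mem r (h2 v), fun v hv => ?_⟩
        rw [LinearMap.smul_apply, h3 v hv, smul_zero] }
  have hNL : ∀ X ∈ N, L X ∈ N := by
    rintro X ⟨h3, h4, h5⟩
    refine ⟨hLC X h3, fun v => ?_, fun v hv => ?_⟩
    · rw [hLθ X h3, Module.End.mul_apply, Module.End.mul_apply]
      exact hWθ _ (h4 _)
    · rw [hLθ X h3, Module.End.mul_apply, Module.End.mul_apply, h5 _ (hWθ' v hv), map_zero]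
  rw [Module.End.isSemisimple_iff] at hL
  obtain ⟨M, hM, hNM⟩ := hL N (by
    rw [Module.End.mem_invtSubmodule_iff_forall_mem_of_mem]
    exact hNL)
  rw [Module.End.mem_invtSubmodule_iff_forall_mem_of_mem] at hM
  obtain ⟨W'', hW'', hcW⟩ := hA W hWA
  obtain ⟨p, hp1, -, hpW, -, hpcomm⟩ := exists_projection hcW
  have hpC : p ∈ commutant ρ A := fun a ha =>
    hpcomm _ (hWA _ ⟨a, ha, rfl⟩) (hW'' _ ⟨a, ha, rfl⟩)
  have hz : L p - p ∈ N := by
    refine ⟨Submodule.sub_mem _ (hLC p hpC) hpC, fun v => ?_, fun v hv => ?_⟩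
    · rw [LinearMap.sub_apply, hLθ p hpC, Module.End.mul_apply, Module.End.mul_apply]
      exact W.sub_mem (hWθ _ (hpW _)) (hpW _)
    · rw [LinearMap.sub_apply, hLθ p hpC, Module.End.mul_apply, Module.End.mul_apply,
        hp1 _ (hWθ' v hv), hp1 v hv, ← Module.End.mul_apply, h2, Module.End.one_apply, sub_self]
  obtain ⟨X, hX, f, hf, hXf⟩ := Submodule.mem_sup.1
    (show p ∈ N ⊔ M by rw [hNM.sup_eq_top]; trivial)
  have hLf : L f = f := by
    have h3 : L f - f ∈ N ⊓ M := by
      refine ⟨?_, M.sub_mem (hM f hf) hf⟩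
      have h4 : L f - f = (L p - p) - (L X - X) := by
        rw [← hXf, map_add]
        abel
      rw [h4]
      exact N.sub_mem hz (N.sub_mem (hNL X hX) hX)
    rw [hNM.inf_eq_bot, Submodule.mem_bot, sub_eq_zero] at h3
    exact h3
  have hfp : f = p - X := by rw [← hXf]; abel
  have hfC : f ∈ commutant ρ A := by
    rw [hfp]
    exact Submodule.sub_mem _ hpC hX.1
  have hfW : ∀ v, f v ∈ W := fun v => by
    rw [hfp]
    exact W.sub_mem (hpW v) (hX.2.1 v)
  have hf1 : ∀ v ∈ W, f v = v := by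
    intro v hv
    rw [hfp, LinearMap.sub_apply, hp1 v hv, hX.2.2 v hv, sub_zero]
  have hfθ : θ * f = f * θ := by
    calc θ * f = θ * f * (θ' * θ) := by rw [h1, mul_one]
      _ = (θ * f * θ') * θ := by simp only [mul_assoc]
      _ = f * θ := by rw [← hLθ f hfC, hLf]
  refine ⟨LinearMap.ker f, ?_, ?_, ?_⟩
  · rintro _ ⟨a, ha, rfl⟩ v hv
    rw [LinearMap.mem_ker] at hv ⊢
    have h1 := LinearMap.congr_fun (hfC a ha) v
    rw [Module.End.mul_apply, Module.End.mul_apply, hv, map_zero] at h1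
    exact h1.symm
  · intro v hv
    rw [LinearMap.mem_ker] at hv ⊢
    have h1 := LinearMap.congr_fun hfθ v
    rw [Module.End.mul_apply, Module.End.mul_apply, hv, map_zero] at h1
    exact h1.symm
  · rw [isCompl_iff, disjoint_iff, codisjoint_iff]
    constructor
    · rw [eq_bot_iff]
      rintro v ⟨hv1, hv2⟩
      rw [Submodule.mem_bot, ← hf1 v hv1]
      exact hv2
    · rw [eq_top_iff]
      intro v _
      have h1 : v = f v + (v - f v) := by abel
      rw [h1]
      refine Submodule.add_mem_sup (hfW v) ?_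
      rw [LinearMap.mem_ker, map_sub, hf1 _ (hfW v), sub_self]

/-- The twist. -/
theorem exists_twist [IsAlgClosed K] [CharZero K] {G : Type*} [Group G]
    (ρ : G →* Module.End K V) {A : Subgroup G} {y : G} (hy : ∀ a ∈ A, y⁻¹ * a * y ∈ A)
    (hy' : ∀ a ∈ A, y * a * y⁻¹ ∈ A) (hA : ActsSemisimply (ρ '' (A : Set G))) :
    ∃ θ N : Module.End K V, N ∈ commutant ρ A ∧ IsNilpotent N ∧ ρ y * N = N * ρ y ∧
      θ * N = N * θ ∧ ρ y = θ * (1 + N) ∧ Function.Injective θ ∧
      ∀ W : Submodule K V, Stable (ρ '' (A : Set G)) W → (∀ v ∈ W, θ v ∈ W) →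
        ∃ W' : Submodule K V, Stable (ρ '' (A : Set G)) W' ∧ (∀ v ∈ W', θ v ∈ W') ∧
          IsCompl W W' := by
  have hinv : ∀ g : G, ρ g * ρ g⁻¹ = 1 := fun g => by rw [← map_mul, mul_inv_cancel, map_one]
  have hinv' : ∀ g : G, ρ g⁻¹ * ρ g = 1 := fun g => by rw [← map_mul, inv_mul_cancel, map_one]
  let h : (Module.End K V)ˣ := ⟨ρ y, ρ y⁻¹, hinv y, hinv' y⟩
  have hh : (h : Module.End K V) = ρ y := rfl
  have hh' : ((h⁻¹ : (Module.End K V)ˣ) : Module.End K V) = ρ y⁻¹ := rfl
  obtain ⟨m, S, U, hJ⟩ := exists_JC h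
  have hyS : ρ y = S * U := hJ.mul
  have hSU : S * U = U * S := hJ.comm
  have hyU : ρ y * U = U * ρ y := by rw [hyS, ← mul_assoc, ← hSU]
  have hyU' : ρ y⁻¹ * U = U * ρ y⁻¹ := by
    calc ρ y⁻¹ * U = ρ y⁻¹ * U * (ρ y * ρ y⁻¹) := by rw [hinv, mul_one]
      _ = ρ y⁻¹ * (U * ρ y) * ρ y⁻¹ := by simp only [mul_assoc]
      _ = (ρ y⁻¹ * ρ y) * U * ρ y⁻¹ := by rw [← hyU]; simp only [mul_assoc]
      _ = U * ρ y⁻¹ := by rw [hinv', one_mul]
  obtain ⟨S', hS'⟩ : ∃ S', S' = U * ρ y⁻¹ := ⟨_, rfl⟩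
  have hSS' : S * S' = 1 := by rw [hS', ← mul_assoc, ← hyS, hinv]
  have hS'S : S' * S = 1 := by
    rw [hS', ← hyU', mul_assoc, ← hSU, ← hyS, hinv']
  have hSss : S.IsSemisimple := by
    obtain ⟨p, hp1, hp2⟩ := hJ.ss
    exact Module.End.isSemisimple_of_squarefree_aeval_eq_zero hp1 hp2
  -- the inverse of `U`
  obtain ⟨U', hU'⟩ : ∃ U', U' = ρ y⁻¹ * S := ⟨_, rfl⟩
  have hU'U : U' * U = 1 := by rw [hU', mul_assoc, ← hyS, hinv']
  have hUU' : U * U' = 1 := by rw [hU', ← mul_assoc, ← hS', hS'S]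
  have hS'e : S' = U * ρ y⁻¹ := hS'
  have hSe : S = ρ y * U' := by rw [hU', ← mul_assoc, hinv, one_mul]
  -- the commutant is preserved
  obtain ⟨C, hC⟩ : ∃ C, C = commutant ρ A := ⟨_, rfl⟩
  have hyC : ∀ X ∈ C, ρ y * X * ρ y⁻¹ ∈ C := fun X hX => by
    rw [hC] at hX ⊢
    exact conj_mem_commutant ρ hy hX
  have hyC' : ∀ X ∈ C, ρ y⁻¹ * X * ρ y ∈ C := fun X hX => by
    rw [hC] at hX ⊢
    have h3 := conj_mem_commutant ρ (y := y⁻¹) (by rwa [inv_inv]) hX
    rwa [inv_inv] at h3
  have hSC : ∀ X ∈ C, S * X * S' ∈ C := stab_S hJ hyC hSS'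
  let L : Module.End K (Module.End K V) := LinearMap.mulLeft K S * LinearMap.mulRight K S'
  let L' : Module.End K (Module.End K V) := LinearMap.mulLeft K S' * LinearMap.mulRight K S
  have hL : ∀ X, L X = S * X * S' := fun X => by
    change S * (X * S') = _
    rw [mul_assoc]
  have hL' : ∀ X, L' X = S' * X * S := fun X => by
    change S' * (X * S) = _
    rw [mul_assoc]
  have hLL' : L * L' = 1 := by
    refine LinearMap.ext fun X => ?_
    rw [Module.End.mul_apply, hL, hL', Module.End.one_apply]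
    calc S * (S' * X * S) * S' = (S * S') * X * (S * S') := by simp only [mul_assoc]
      _ = X := by rw [hSS', one_mul, mul_one]
  have hL'L : L' * L = 1 := by
    refine LinearMap.ext fun X => ?_
    rw [Module.End.mul_apply, hL, hL', Module.End.one_apply]
    calc S' * (S * X * S') * S = (S' * S) * X * (S' * S) := by simp only [mul_assoc]
      _ = X := by rw [hS'S, one_mul, mul_one]
  have hS'C : ∀ X ∈ C, S' * X * S ∈ C := by
    have h1 := stable_inv hL'L hLL' (W := C) (fun X hX => by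
      rw [hL]
      exact hSC X hX)
    intro X hX
    have h2 := h1 X hX
    rwa [hL'] at h2
  have hUC : ∀ X ∈ C, U * X * U' ∈ C := by
    intro X hX
    have h1 := hS'C _ (hyC X hX)
    have h2 : S' * (ρ y * X * ρ y⁻¹) * S = U * X * U' := by
      rw [hS', hU']
      calc U * ρ y⁻¹ * (ρ y * X * ρ y⁻¹) * S = U * (ρ y⁻¹ * ρ y) * X * (ρ y⁻¹ * S) := by
            simp only [mul_assoc]
        _ = U * X * (ρ y⁻¹ * S) := by rw [hinv', mul_one]
    rwa [h2] at h1
  have hU'C : ∀ X ∈ C, U' * X * U ∈ C := by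
    intro X hX
    have h1 := hyC' _ (hSC X hX)
    have h2 : ρ y⁻¹ * (S * X * S') * ρ y = U' * X * U := by
      rw [hS', hU']
      calc ρ y⁻¹ * (S * X * (U * ρ y⁻¹)) * ρ y = ρ y⁻¹ * S * X * U * (ρ y⁻¹ * ρ y) := by
            simp only [mul_assoc]
        _ = ρ y⁻¹ * S * X * U := by rw [hinv', mul_one]
    rwa [h2] at h1
  have hmul : ∀ X ∈ C, ∀ Y ∈ C, X * Y ∈ C := fun X hX Y hY => by
    rw [hC] at hX hY ⊢
    exact mul_mem_commutant ρ hX hY
  have heq : ∀ X ∈ C, ∀ X' ∈ C, (∀ Y ∈ C, LinearMap.trace K V (X * Y) =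
      LinearMap.trace K V (X' * Y)) → X = X' := fun X hX X' hX' h3 => by
    rw [hC] at hX hX' h3
    exact eq_of_trace ρ hA hX hX' h3
  have h1C : (1 : Module.End K V) ∈ C := by
    rw [hC]
    exact one_mem_commutant ρ
  -- the projection of `U`
  obtain ⟨u, huC', hutr'⟩ := exists_trace_proj ρ hA U
  have huC : u ∈ C := by rw [hC]; exact huC'
  have hutr : ∀ Y ∈ C, LinearMap.trace K V (u * Y) = LinearMap.trace K V (U * Y) := by
    rw [hC]; exact hutr'
  have huT : ∀ T ∈ C, u * T = U * T * U' * u := by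
    intro T hT
    refine heq _ (hmul u huC T hT) _ (hmul _ (hUC T hT) u huC) ?_
    intro Y hY
    have e1 : LinearMap.trace K V (U * T * U' * u * Y) =
        LinearMap.trace K V (u * (Y * (U * T * U'))) := by
      rw [mul_assoc (U * T * U'), LinearMap.trace_mul_comm, mul_assoc]
    have e2 : LinearMap.trace K V (U * (Y * (U * T * U'))) =
        LinearMap.trace K V ((U * T * U') * (U * Y)) := by
      rw [← mul_assoc U Y, LinearMap.trace_mul_comm]
    rw [e1, hutr _ (hmul Y hY _ (hUC T hT)), mul_assoc u T Y, hutr _ (hmul T hT Y hY), e2]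
    congr 1
    calc U * (T * Y) = U * T * (U' * U) * Y := by rw [hU'U, mul_one, mul_assoc]
      _ = U * T * U' * (U * Y) := by simp only [mul_assoc]
  have hyu : ρ y * u * ρ y⁻¹ = u := by
    refine heq _ (hyC u huC) _ huC ?_
    intro Y hY
    have e1 : ∀ X : Module.End K V, LinearMap.trace K V (ρ y * X * ρ y⁻¹ * Y) =
        LinearMap.trace K V (X * (ρ y⁻¹ * Y * ρ y)) := by
      intro X
      rw [show ρ y * X * ρ y⁻¹ * Y = ρ y * (X * (ρ y⁻¹ * Y)) by simp only [mul_assoc],
        LinearMap.trace_mul_comm]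
      simp only [mul_assoc]
    rw [e1, hutr _ (hyC' Y hY), ← e1, hyU, mul_assoc U, hinv, mul_one, ← hutr Y hY]
  have hyu' : ρ y * u = u * ρ y := by
    calc ρ y * u = ρ y * u * (ρ y⁻¹ * ρ y) := by rw [hinv', mul_one]
      _ = (ρ y * u * ρ y⁻¹) * ρ y := by simp only [mul_assoc]
      _ = u * ρ y := by rw [hyu]
  have hUu : U * u * U' = u := by
    refine heq _ (hUC u huC) _ huC ?_
    intro Y hY
    have e1 : ∀ X : Module.End K V, LinearMap.trace K V (U * X * U' * Y) =
        LinearMap.trace K V (X * (U' * Y * U)) := by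
      intro X
      rw [show U * X * U' * Y = U * (X * (U' * Y)) by simp only [mul_assoc],
        LinearMap.trace_mul_comm]
      simp only [mul_assoc]
    rw [e1, hutr _ (hU'C Y hY), ← e1, mul_assoc U, hUU', mul_one, ← hutr Y hY]
  have hUu' : U * u = u * U := by
    calc U * u = U * u * (U' * U) := by rw [hU'U, mul_one]
      _ = (U * u * U') * U := by simp only [mul_assoc]
      _ = u * U := by rw [hUu]
  -- `u` is unipotent
  obtain ⟨N, hN⟩ : ∃ N, N = u - 1 := ⟨_, rfl⟩
  have hNC : N ∈ C := by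
    rw [hN]
    exact C.sub_mem huC h1C
  have hNpow : ∀ k : ℕ, N ^ k ∈ C := by
    intro k
    induction k with
    | zero => rw [pow_zero]; exact h1C
    | succ k ih => rw [pow_succ]; exact hmul _ ih _ hNC
  have hUnil : IsNilpotent (U - 1) := ⟨m, hJ.nil⟩
  have hcomm : Commute (U - 1) N := by
    rw [hN]
    exact ((show Commute U u from hUu').sub_left (Commute.one_left u)).sub_right
      (Commute.one_right _)
  have hNnil : IsNilpotent N := by
    refine isNilpotent_of_trace N fun k => ?_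
    have e1 : N ^ (k + 1) = u * N ^ k - N ^ k := by
      rw [pow_succ']
      nth_rw 1 [hN]
      rw [sub_mul, one_mul]
    have e2 : LinearMap.trace K V ((U - 1) * N ^ k) = 0 :=
      (LinearMap.isNilpotent_trace_of_isNilpotent
        ((hcomm.pow_right k).isNilpotent_mul_right hUnil)).eq_zero
    rw [e1, map_sub, hutr _ (hNpow k), ← e2, sub_mul, one_mul, map_sub]
  have hu1 : u = 1 + N := by rw [hN]; abel
  obtain ⟨uu, huu⟩ : IsUnit u := by
    rw [hu1]
    exact hNnil.isUnit_one_add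
  obtain ⟨u', hu'⟩ : ∃ u', u' = ((uu⁻¹ : (Module.End K V)ˣ) : Module.End K V) := ⟨_, rfl⟩
  have huu' : u * u' = 1 := by rw [← huu, hu']; exact uu.mul_inv
  have hu'u : u' * u = 1 := by rw [← huu, hu']; exact uu.inv_mul
  have hyu'' : ρ y * u' = u' * ρ y := by
    calc ρ y * u' = (u' * u) * ρ y * u' := by rw [hu'u, one_mul]
      _ = u' * (u * ρ y) * u' := by simp only [mul_assoc]
      _ = u' * ρ y * (u * u') := by rw [← hyu']; simp only [mul_assoc]
      _ = u' * ρ y := by rw [huu', mul_one]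
  have hyN : ρ y * N = N * ρ y := by rw [hN, mul_sub, sub_mul, hyu', mul_one, one_mul]
  have huN : u' * N = N * u' := by
    rw [hN, mul_sub, sub_mul, hu'u, huu', mul_one, one_mul]
  have hC1 : (ρ y * u') * (u * ρ y⁻¹) = 1 := by
    rw [mul_assoc, ← mul_assoc u', hu'u, one_mul, hinv]
  have hC2 : (u * ρ y⁻¹) * (ρ y * u') = 1 := by
    rw [mul_assoc, ← mul_assoc (ρ y⁻¹), hinv', one_mul, huu']
  refine ⟨ρ y * u', N, hC ▸ hNC, hNnil, hyN, ?_, ?_, ?_, ?_⟩
  · rw [mul_assoc, huN, ← mul_assoc, hyN, mul_assoc]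
  · rw [← hu1, mul_assoc, hu'u, mul_one]
  · intro v w hvw
    have h3 : ∀ v, (u * ρ y⁻¹) ((ρ y * u') v) = v := fun v => by
      rw [← Module.End.mul_apply, hC2, Module.End.one_apply]
    rw [← h3 v, hvw, h3]
  · intro W hWA hWθ
    refine compl_of_conj ρ hA hC2 hC1 (ss_conj hS'S hSS' hSss) ?_ ?_ hWA hWθ
    · intro X hX
      rw [← hC] at hX ⊢
      change L X ∈ C
      rw [hL]
      exact hSC X hX
    · intro X hX
      rw [← hC] at hX
      change L X = _
      rw [hL]
      -- `u' X u = U' X U`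
      have h3 : u' * X * u = U' * X * U := by
        have h4 := huT _ (hU'C X hX)
        have h5 : U * (U' * X * U) * U' = X := by
          calc U * (U' * X * U) * U' = (U * U') * X * (U * U') := by simp only [mul_assoc]
            _ = X := by rw [hUU', one_mul, mul_one]
        rw [h5] at h4
        calc u' * X * u = u' * (X * u) := by rw [mul_assoc]
          _ = u' * (u * (U' * X * U)) := by rw [h4]
          _ = U' * X * U := by rw [← mul_assoc, hu'u, one_mul]
      calc S * X * S' = ρ y * (U' * X * U) * ρ y⁻¹ := by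
            rw [hSe, hS'e]; simp only [mul_assoc]
        _ = ρ y * (u' * X * u) * ρ y⁻¹ := by rw [h3]
        _ = ρ y * u' * X * (u * ρ y⁻¹) := by simp only [mul_assoc]

end Pool.Agent.Helper40.JL
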