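import Pool.Agent.Helper40.JL.Twist

/-!
# Jordan types at one eigenvalue: the algebra (helper40)

`ρ y = θ (1 + N)` is the decomposition of `Twist`.  The number of Jordan blocks of `T` at `l` of size
larger than `j` is the dimension of `ker (T - l) ⊓ range (T - l) ^ j`.
-/

set_option autoImplicit false

namespace Pool.Agent.Helper40.JL

open Polynomial Pool.Agent.Helper40.ZO Pool.Agent.Helper40.LL

variable {K V : Type*} [Field K] [AddCommGroup V] [Module K V] [FiniteDimensional K V]

theorem finrank_map_inf {V₂ : Type*} [AddCommGroup V₂] [Module K V₂] (f : V →ₗ[K] V₂)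
    (W : Submodule K V) :
    Module.finrank K (W.map f) + Module.finrank K (LinearMap.ker f ⊓ W : Submodule K V) =
      Module.finrank K W := by
  have h2 : (LinearMap.ker (f.domRestrict W)).map W.subtype = LinearMap.ker f ⊓ W := by
    ext u
    constructor
    · rintro ⟨⟨v, hv⟩, h, rfl⟩
      exact ⟨h, hv⟩
    · rintro ⟨h, hv⟩
      exact ⟨⟨u, hv⟩, h, rfl⟩
  have h3 := LinearMap.finrank_range_add_finrank_ker (f.domRestrict W)
  have h4 : Module.finrank K (LinearMap.ker (f.domRestrict W)) =
      Module.finrank K (LinearMap.ker f ⊓ W : Submodule K V) := by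
    rw [← h2]
    exact (LinearEquiv.finrank_eq (Submodule.equivMapOfInjective W.subtype
      W.injective_subtype _))
  rw [LinearMap.range_domRestrict, h4] at h3
  exact h3

/-- The number of blocks. -/
theorem blocks_eq (D : Module.End K V) (j : ℕ) :
    Module.finrank K (LinearMap.ker D ⊓ LinearMap.range (D ^ j) : Submodule K V) +
      Module.finrank K (LinearMap.ker (D ^ j)) = Module.finrank K (LinearMap.ker (D ^ (j + 1))) := by
  have h1 := finrank_map_inf (D ^ j) (LinearMap.ker (D ^ (j + 1)))
  have h2 : (LinearMap.ker (D ^ (j + 1))).map (D ^ j) = LinearMap.ker D ⊓ LinearMap.range (D ^ j) := by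
    ext w
    constructor
    · rintro ⟨v, hv, rfl⟩
      refine ⟨?_, v, rfl⟩
      rw [SetLike.mem_coe, LinearMap.mem_ker, pow_succ', Module.End.mul_apply] at hv
      exact hv
    · rintro ⟨hw, v, rfl⟩
      refine ⟨v, ?_, rfl⟩
      rw [SetLike.mem_coe, LinearMap.mem_ker, pow_succ', Module.End.mul_apply]
      exact hw
  have h3 : LinearMap.ker (D ^ j) ⊓ LinearMap.ker (D ^ (j + 1)) = LinearMap.ker (D ^ j) := by
    refine inf_eq_left.2 fun v hv => ?_
    rw [LinearMap.mem_ker] at hv ⊢
    rw [pow_succ', Module.End.mul_apply, hv, map_zero]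
  rw [h2, h3] at h1
  exact h1

omit [FiniteDimensional K V] in
theorem mem_comm_pow {G : Type*} [Group G] (ρ : G →* Module.End K V) {A : Subgroup G}
    {X : Module.End K V} (hX : X ∈ commutant ρ A) (n : ℕ) : X ^ n ∈ commutant ρ A := by
  intro a ha
  exact (Commute.pow_right (hX a ha : Commute (ρ a) X) n).eq

/-- The lower bound. -/
theorem blocks_ge {G : Type*} [Group G] (ρ : G →* Module.End K V) {A : Subgroup G} {y : G}
    {θ N : Module.End K V} (hNC : N ∈ commutant ρ A) (hNy : ρ y * N = N * ρ y)
    (hθN : θ * N = N * θ) (hy : ρ y = θ * (1 + N)) (hinj : Function.Injective θ)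
    (hcompl : ∀ W : Submodule K V, Stable (ρ '' (A : Set G)) W → (∀ v ∈ W, θ v ∈ W) →
        ∃ W' : Submodule K V, Stable (ρ '' (A : Set G)) W' ∧ (∀ v ∈ W', θ v ∈ W') ∧
          IsCompl W W') (l : K) (j : ℕ) :
    LinearMap.ker (ρ y - algebraMap K (Module.End K V) l) ⊓
        (LinearMap.ker N ⊓ LinearMap.range (N ^ j)) ≤
      LinearMap.ker (ρ y - algebraMap K (Module.End K V) l) ⊓
        LinearMap.range ((ρ y - algebraMap K (Module.End K V) l) ^ j) := by
  obtain ⟨D, hD⟩ : ∃ D : Module.End K V, D = ρ y - algebraMap K (Module.End K V) l := ⟨_, rfl⟩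
  rw [← hD]
  have hDv : ∀ v, D v = ρ y v - l • v := by
    intro v
    rw [hD, LinearMap.sub_apply, Module.algebraMap_end_apply]
  rintro w ⟨hDw, hNw, v₀, hv₀⟩
  refine ⟨hDw, ?_⟩
  have hDw' : D w = 0 := hDw
  have hNw' : N w = 0 := hNw
  by_cases hw0 : w = 0
  · rw [hw0]
    exact Submodule.zero_mem _
  have hθw : θ w = l • w := by
    have h1 : ρ y w = l • w := by
      rw [hDv, sub_eq_zero] at hDw'
      exact hDw'
    rw [← h1, hy, Module.End.mul_apply, LinearMap.add_apply, Module.End.one_apply, hNw', add_zero]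
  have hl : l ≠ 0 := by
    rintro rfl
    rw [zero_smul] at hθw
    exact hw0 (hinj (by rw [hθw, map_zero]))
  have hθNj : ∀ v, (N ^ j) (θ v) = θ ((N ^ j) v) := fun v =>
    (LinearMap.congr_fun (Commute.pow_right (hθN : Commute θ N) j).eq v).symm
  obtain ⟨Q', hQ'A, hQ'θ, hQQ'⟩ := hcompl (LinearMap.ker (N ^ j)) (by
    rintro _ ⟨a, ha, rfl⟩ v hv
    have h1 := LinearMap.congr_fun (mem_comm_pow ρ hNC j a ha) v
    rw [Module.End.mul_apply, Module.End.mul_apply, LinearMap.mem_ker.1 hv, map_zero] at h1
    exact h1.symm) (by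
    intro v hv
    rw [LinearMap.mem_ker, hθNj, LinearMap.mem_ker.1 hv, map_zero])
  obtain ⟨q, hq, v, hv, hqv⟩ := Submodule.mem_sup.1
    (show v₀ ∈ LinearMap.ker (N ^ j) ⊔ Q' by rw [hQQ'.sup_eq_top]; trivial)
  have hvw : (N ^ j) v = w := by
    rw [← hv₀, ← hqv, map_add, LinearMap.mem_ker.1 hq, zero_add]
  have hθv : θ v = l • v := by
    have h1 : θ v - l • v ∈ LinearMap.ker (N ^ j) ⊓ Q' := by
      refine ⟨?_, Q'.sub_mem (hQ'θ v hv) (Q'.smul_mem l hv)⟩
      rw [SetLike.mem_coe, LinearMap.mem_ker, map_sub, map_smul, hθNj, hvw, hθw, sub_self]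
    rw [hQQ'.inf_eq_bot, Submodule.mem_bot, sub_eq_zero] at h1
    exact h1
  have hDv1 : D v = l • N v := by
    rw [hDv, hy, Module.End.mul_apply, LinearMap.add_apply, Module.End.one_apply, map_add, hθv,
      add_sub_cancel_left]
    have h1 := LinearMap.congr_fun hθN v
    rw [Module.End.mul_apply, Module.End.mul_apply, hθv, map_smul] at h1
    exact h1
  have hDN : Commute D N := by
    rw [hD]
    exact Commute.sub_left hNy (Algebra.commute_algebraMap_left l N)
  have hDj : ∀ j : ℕ, (D ^ j) v = l ^ j • (N ^ j) v := by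
    intro j
    induction j with
    | zero => rw [pow_zero, pow_zero, pow_zero, one_smul]
    | succ j ih =>
      rw [pow_succ', Module.End.mul_apply, ih, map_smul]
      have h1 := LinearMap.congr_fun (hDN.pow_right j).eq v
      rw [Module.End.mul_apply, Module.End.mul_apply] at h1
      rw [h1, hDv1, map_smul, smul_smul, ← pow_succ, ← Module.End.mul_apply, ← pow_succ]
  refine ⟨(l ^ j)⁻¹ • v, ?_⟩
  rw [map_smul, hDj, hvw, smul_smul, inv_mul_cancel₀ (pow_ne_zero j hl), one_smul]

/-- Semisimplicity at `l` on the kernel of `N` implies semisimplicity at `l`. -/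
theorem ss_of_ker {G : Type*} [Group G] (ρ : G →* Module.End K V) {A : Subgroup G}
    {θ N T : Module.End K V} (hNC : N ∈ commutant ρ A) (hN : IsNilpotent N)
    (hθN : θ * N = N * θ)
    (hcompl : ∀ W : Submodule K V, Stable (ρ '' (A : Set G)) W → (∀ v ∈ W, θ v ∈ W) →
        ∃ W' : Submodule K V, Stable (ρ '' (A : Set G)) W' ∧ (∀ v ∈ W', θ v ∈ W') ∧
          IsCompl W W') (hTN : T * N = N * T)
    (hT : ∀ W : Submodule K V, Stable (ρ '' (A : Set G)) W → (∀ v ∈ W, θ v ∈ W) →
      ∀ v ∈ W, T v ∈ W) {l : K}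
    (hker : ∀ v, N v = 0 → ((T - algebraMap K (Module.End K V) l) ^ 2) v = 0 →
      (T - algebraMap K (Module.End K V) l) v = 0) : SSAt T l := by
  obtain ⟨D, hD⟩ : ∃ D : Module.End K V, D = T - algebraMap K (Module.End K V) l := ⟨_, rfl⟩
  rw [← hD] at hker
  have hDv : ∀ v, D v = T v - l • v := by
    intro v
    rw [hD, LinearMap.sub_apply, Module.algebraMap_end_apply]
  have hDN : Commute D N := by
    rw [hD]
    exact Commute.sub_left hTN (Algebra.commute_algebraMap_left l N)
  have hDW : ∀ W : Submodule K V, Stable (ρ '' (A : Set G)) W → (∀ v ∈ W, θ v ∈ W) →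
      ∀ v ∈ W, D v ∈ W := by
    intro W h1 h2 v hv
    rw [hDv]
    exact W.sub_mem (hT W h1 h2 v hv) (W.smul_mem l hv)
  have key : ∀ j : ℕ, ∀ v, (N ^ j) v = 0 → (D ^ 2) v = 0 → D v = 0 := by
    intro j
    induction j with
    | zero =>
      intro v hv _
      rw [pow_zero, Module.End.one_apply] at hv
      rw [hv, map_zero]
    | succ j ih =>
      intro v hv hDv2
      have hθNj : ∀ v, (N ^ j) (θ v) = θ ((N ^ j) v) := fun v =>
        (LinearMap.congr_fun (Commute.pow_right (hθN : Commute θ N) j).eq v).symm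
      have hDNj : ∀ (i : ℕ) (v : V), (N ^ j) ((D ^ i) v) = (D ^ i) ((N ^ j) v) := fun i v =>
        (LinearMap.congr_fun ((hDN.pow_left i).pow_right j).eq v).symm
      have hQA : Stable (ρ '' (A : Set G)) (LinearMap.ker (N ^ j)) := by
        rintro _ ⟨a, ha, rfl⟩ v hv
        have h1 := LinearMap.congr_fun (mem_comm_pow ρ hNC j a ha) v
        rw [Module.End.mul_apply, Module.End.mul_apply, LinearMap.mem_ker.1 hv, map_zero] at h1
        exact h1.symm
      have hQθ : ∀ v ∈ LinearMap.ker (N ^ j), θ v ∈ LinearMap.ker (N ^ j) := by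
        intro v hv
        rw [LinearMap.mem_ker, hθNj, LinearMap.mem_ker.1 hv, map_zero]
      obtain ⟨Q', hQ'A, hQ'θ, hQQ'⟩ := hcompl (LinearMap.ker (N ^ j)) hQA hQθ
      obtain ⟨q, hq, g, hg, hqg⟩ := Submodule.mem_sup.1
        (show v ∈ LinearMap.ker (N ^ j) ⊔ Q' by rw [hQQ'.sup_eq_top]; trivial)
      have hDq := hDW _ hQA hQθ
      have hDg := hDW Q' hQ'A hQ'θ
      have h2 : ∀ u, (D ^ 2) u = D (D u) := fun u => by rw [pow_two, Module.End.mul_apply]
      have h3 : (D ^ 2) q = 0 := by
        have h4 : (D ^ 2) q ∈ LinearMap.ker (N ^ j) ⊓ Q' := by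
          refine ⟨?_, ?_⟩
          · rw [h2]
            exact hDq _ (hDq _ hq)
          · have h5 : (D ^ 2) q = -(D ^ 2) g := by
              rw [← hqg, map_add] at hDv2
              exact eq_neg_of_add_eq_zero_left hDv2
            rw [h5, h2]
            exact Q'.neg_mem (hDg _ (hDg _ hg))
        rwa [hQQ'.inf_eq_bot, Submodule.mem_bot] at h4
      have h4 : (D ^ 2) g = 0 := by
        rw [← hqg, map_add, h3, zero_add] at hDv2
        exact hDv2
      have h5 : D q = 0 := ih q hq h3
      have h6 : N ((N ^ j) g) = 0 := by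
        rw [← Module.End.mul_apply, ← pow_succ']
        have h7 : (N ^ (j + 1)) q = 0 := by
          rw [pow_succ', Module.End.mul_apply, LinearMap.mem_ker.1 hq, map_zero]
        rw [← hqg, map_add, h7, zero_add] at hv
        exact hv
      have h7 : D ((N ^ j) g) = 0 := hker _ h6 (by rw [← hDNj, h4, map_zero])
      have h8 : D g = 0 := by
        have h9 : D g ∈ LinearMap.ker (N ^ j) ⊓ Q' := by
          refine ⟨?_, hDg g hg⟩
          have h10 := hDNj 1 g
          rw [pow_one] at h10
          rw [SetLike.mem_coe, LinearMap.mem_ker, h10, h7]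
        rwa [hQQ'.inf_eq_bot, Submodule.mem_bot] at h9
      rw [← hqg, map_add, h5, h8, add_zero]
  obtain ⟨r, hr⟩ := hN
  intro v hv
  rw [← hD] at hv ⊢
  exact key r v (by rw [hr, LinearMap.zero_apply]) hv

omit [FiniteDimensional K V] in
theorem ss_pow {D : Module.End K V} (h : ∀ v, (D ^ 2) v = 0 → D v = 0) :
    ∀ (k : ℕ) (v : V), (D ^ k) v = 0 → D v = 0 := by
  intro k
  induction k with
  | zero =>
    intro v hv
    rw [pow_zero, Module.End.one_apply] at hv
    rw [hv, map_zero]
  | succ k ih =>
    intro v hv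
    rw [pow_succ, Module.End.mul_apply] at hv
    refine h v ?_
    rw [pow_two, Module.End.mul_apply]
    exact ih _ hv

/-- The upper bound. -/
theorem blocks_le {θ N g T : Module.End K V} (hN : IsNilpotent N) (hθN : Commute θ N)
    (hg : ∀ X : Module.End K V, Commute X N → Commute X g) (hginj : Function.Injective g)
    (hθinj : Function.Injective θ) (hT : T = θ * (1 + N * g)) {l : K} (hss : SSAt θ l) (j : ℕ) :
    LinearMap.ker (T - algebraMap K (Module.End K V) l) ⊓
        LinearMap.range ((T - algebraMap K (Module.End K V) l) ^ j) ≤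
      LinearMap.ker N ⊓ LinearMap.range (N ^ j) := by
  obtain ⟨D, hD⟩ : ∃ D : Module.End K V, D = T - algebraMap K (Module.End K V) l := ⟨_, rfl⟩
  obtain ⟨E, hE⟩ : ∃ E : Module.End K V, E = θ - algebraMap K (Module.End K V) l := ⟨_, rfl⟩
  rw [← hD]
  have hθg : Commute θ g := hg θ hθN
  have hNg : Commute N g := hg N (Commute.refl N)
  have hM : Commute θ (N * g) := hθN.mul_right hθg
  obtain ⟨M, hMd⟩ : ∃ M : Module.End K V, M = θ * (N * g) := ⟨_, rfl⟩
  have hMnil : IsNilpotent M := by
    rw [hMd]
    have h1 : IsNilpotent (N * g) := hNg.isNilpotent_mul_right hN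
    exact hM.isNilpotent_mul_left h1
  have hDE : D = E + M := by
    rw [hD, hE, hT, hMd, mul_add, mul_one]
    abel
  have hEθ : Commute E θ := by
    rw [hE]
    exact Commute.sub_left (Commute.refl θ) (Algebra.commute_algebraMap_left l θ)
  have hEN : Commute E N := by
    rw [hE]
    exact Commute.sub_left hθN (Algebra.commute_algebraMap_left l N)
  have hEg : Commute E g := hg E hEN
  have hEM : Commute E M := by
    rw [hMd]
    exact hEθ.mul_right (hEN.mul_right hEg)
  have hDM : Commute D M := by
    rw [hDE]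
    exact hEM.add_left (Commute.refl M)
  have hDEc : Commute D E := by
    rw [hDE]
    exact (Commute.refl E).add_left hEM.symm
  have hssE : ∀ v, (E ^ 2) v = 0 → E v = 0 := by
    rw [hE]
    exact hss
  -- generalized eigenvectors of `T` are eigenvectors of `θ`
  have hgen : ∀ (i : ℕ) (v : V), (D ^ i) v = 0 → E v = 0 := by
    intro i v hv
    obtain ⟨W, hW⟩ : ∃ W, W = LinearMap.ker (D ^ i) := ⟨_, rfl⟩
    have hWs : ∀ X : Module.End K V, Commute D X → ∀ w ∈ W, X w ∈ W := by
      intro X hX w hw
      rw [hW, LinearMap.mem_ker] at hw ⊢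
      have h1 := LinearMap.congr_fun (hX.pow_left i).eq w
      rw [Module.End.mul_apply, Module.End.mul_apply, hw, map_zero] at h1
      exact h1
    have hWD := hWs D (Commute.refl D)
    have hWM := hWs M hDM
    have hWE := hWs E hDEc
    have hrp : ∀ (X : Module.End K V) (hX : ∀ w ∈ W, X w ∈ W) (r : ℕ) (w : W),
        ((((X.restrict hX) ^ r) w : W) : V) = (X ^ r) w := by
      intro X hX r
      induction r with
      | zero => intro w; rfl
      | succ r ih =>
        intro w
        rw [pow_succ, Module.End.mul_apply, ih, pow_succ, Module.End.mul_apply]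
        rfl
    have h1 : IsNilpotent (D.restrict hWD) := by
      refine ⟨i, LinearMap.ext fun w => Subtype.ext ?_⟩
      rw [hrp]
      have h2 : ∀ u ∈ W, (D ^ i) u = 0 := by
        rw [hW]
        exact fun u hu => hu
      rw [h2 _ w.2]
      rfl
    have h2 : IsNilpotent (M.restrict hWM) := by
      obtain ⟨r, hr⟩ := hMnil
      refine ⟨r, LinearMap.ext fun w => Subtype.ext ?_⟩
      rw [hrp, hr]
      rfl
    have h3 : Commute (D.restrict hWD) (M.restrict hWM) := by
      refine LinearMap.ext fun w => Subtype.ext ?_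
      exact LinearMap.congr_fun hDM.eq (w : V)
    obtain ⟨r, hr⟩ := h3.isNilpotent_sub h1 h2
    have h4 : D.restrict hWD - M.restrict hWM = E.restrict hWE := by
      refine LinearMap.ext fun w => Subtype.ext ?_
      change D w - M w = E w
      rw [hDE, LinearMap.add_apply, add_sub_cancel_right]
    rw [h4] at hr
    have hvW : v ∈ W := by rw [hW]; exact hv
    have h5 : (E ^ r) v = 0 := by
      have h6 := hrp E hWE r ⟨v, hvW⟩
      rw [hr] at h6
      exact h6.symm
    exact ss_pow hssE r v h5
  rintro w ⟨hw, v, rfl⟩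
  have hw' : D ((D ^ j) v) = 0 := hw
  have hv0 : (D ^ (j + 1)) v = 0 := by
    rw [pow_succ', Module.End.mul_apply]
    exact hw'
  have hEv := hgen (j + 1) v hv0
  -- on the eigenspace of `θ`
  have hDe : ∀ u, E u = 0 → D u = l • (N * g) u := by
    intro u hu
    have h1 : θ u = l • u := by
      rw [hE, LinearMap.sub_apply, Module.algebraMap_end_apply, sub_eq_zero] at hu
      exact hu
    rw [hDE, LinearMap.add_apply, hu, zero_add, hMd, hM.eq, Module.End.mul_apply, h1, map_smul]
  have hpow : ∀ i : ℕ, (D ^ i) v = (N ^ i) ((l ^ i) • (g ^ i) v) := by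
    intro i
    induction i with
    | zero => simp
    | succ i ih =>
      have h1 : E ((D ^ i) v) = 0 := by
        have h2 := LinearMap.congr_fun (hDEc.pow_left i).eq v
        rw [Module.End.mul_apply, Module.End.mul_apply, hEv, map_zero] at h2
        exact h2.symm
      rw [pow_succ', Module.End.mul_apply, hDe _ h1, ih, map_smul, map_smul, map_smul]
      have h3 : (N * g) ((N ^ i) ((g ^ i) v)) = (N ^ (i + 1)) ((g ^ (i + 1)) v) := by
        rw [← Module.End.mul_apply, ← Module.End.mul_apply, ← Module.End.mul_apply]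
        congr 1
        have h4 : g * N ^ i = N ^ i * g := (hNg.symm.pow_right i).eq
        rw [pow_succ' N, pow_succ' g]
        calc N * g * (N ^ i * g ^ i) = N * (g * N ^ i) * g ^ i := by simp only [mul_assoc]
          _ = N * N ^ i * (g * g ^ i) := by rw [h4]; simp only [mul_assoc]
      rw [h3, smul_smul, ← pow_succ']
  by_cases hl : l = 0
  · -- then `v = 0`
    have h1 : v = 0 := by
      rw [hE, LinearMap.sub_apply, Module.algebraMap_end_apply, hl, zero_smul, sub_zero] at hEv
      exact hθinj (by rw [hEv, map_zero])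
    rw [h1, map_zero]
    exact Submodule.zero_mem _
  · refine ⟨?_, ?_⟩
    · have h1 : E ((D ^ j) v) = 0 := by
        have h2 := LinearMap.congr_fun (hDEc.pow_left j).eq v
        rw [Module.End.mul_apply, Module.End.mul_apply, hEv, map_zero] at h2
        exact h2.symm
      have h3 := hDe _ h1
      rw [hw', eq_comm, smul_eq_zero] at h3
      rcases h3 with h3 | h3
      · exact absurd h3 hl
      · rw [SetLike.mem_coe, LinearMap.mem_ker]
        rw [hNg.eq, Module.End.mul_apply] at h3
        exact hginj (by rw [h3, map_zero])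
    · rw [hpow j]
      exact ⟨_, rfl⟩

/-- The powers of a unipotent element. -/
theorem unip_zpow [CharZero K] {N : Module.End K V} (hN : IsNilpotent N)
    {u : (Module.End K V)ˣ} (hu : (u : Module.End K V) = 1 + N) {s : ℤ} (hs : s ≠ 0) :
    ∃ g : Module.End K V, (∀ X : Module.End K V, Commute X N → Commute X g) ∧
      Function.Injective g ∧ ((u ^ s : (Module.End K V)ˣ) : Module.End K V) = 1 + N * g := by
  have hnat : ∀ n : ℕ, n ≠ 0 → ∃ g : Module.End K V,
      (∀ X : Module.End K V, Commute X N → Commute X g) ∧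
        Function.Injective g ∧ ((u ^ n : (Module.End K V)ˣ) : Module.End K V) = 1 + N * g := by
    intro n hn
    obtain ⟨p, hp⟩ : ∃ p : K[X], p = ∑ i ∈ Finset.range n, (1 + X) ^ i := ⟨_, rfl⟩
    have h1 : (1 + X : K[X]) ^ n = 1 + X * p := by
      have h2 := geom_sum_mul (1 + X : K[X]) n
      rw [add_sub_cancel_left] at h2
      rw [hp, mul_comm, h2]
      ring
    have h0 : p.eval 0 = n := by
      rw [hp, eval_finset_sum]
      simp
    obtain ⟨q, hq⟩ : ∃ q : K[X], p = C (n : K) + X * q := by
      obtain ⟨q, hq⟩ := X_dvd_sub_C (p := p)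
      refine ⟨q, ?_⟩
      rw [coeff_zero_eq_eval_zero, h0] at hq
      rw [← hq]
      ring
    refine ⟨aeval N p, ?_, ?_, ?_⟩
    · intro X hX
      rw [aeval_eq_sum_range]
      exact Commute.sum_right _ _ _ fun i _ => (hX.pow_right i).smul_right _
    · have h2 : IsUnit (aeval N p) := by
        rw [hq, map_add, aeval_C, map_mul, aeval_X]
        have h3 : Commute N (aeval N q) := by
          rw [aeval_eq_sum_range]
          exact Commute.sum_right _ _ _ fun i _ => ((Commute.refl N).pow_right i).smul_right _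
        have h4 : IsNilpotent (N * aeval N q) := h3.isNilpotent_mul_right hN
        have h5 : IsUnit (algebraMap K (Module.End K V) (n : K)) := by
          have h6 : IsUnit (n : K) := isUnit_iff_ne_zero.2 (Nat.cast_ne_zero.2 hn)
          exact h6.map _
        exact h4.isUnit_add_left_of_commute h5
          (Algebra.commute_algebraMap_right _ _)
      obtain ⟨w, hw⟩ := h2
      intro a c hac
      rw [← hw] at hac
      have h3 : ∀ v, ((w⁻¹ : (Module.End K V)ˣ) : Module.End K V) ((w : Module.End K V) v) = v := by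
        intro v
        rw [← Module.End.mul_apply, w.inv_mul, Module.End.one_apply]
      rw [← h3 a, hac, h3]
    · rw [Units.val_pow_eq_pow_val, hu]
      have h2 := congrArg (aeval N) h1
      rw [map_pow, map_add, map_one, aeval_X, map_add, map_one, map_mul, aeval_X] at h2
      exact h2
  obtain ⟨n, rfl | rfl⟩ := s.eq_nat_or_neg
  · have hn : n ≠ 0 := by
      rintro rfl
      exact hs rfl
    obtain ⟨g, h1, h2, h3⟩ := hnat n hn
    exact ⟨g, h1, h2, by rw [zpow_natCast]; exact h3⟩
  · have hn : n ≠ 0 := by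
      rintro rfl
      exact hs (by simp)
    obtain ⟨g, h1, h2, h3⟩ := hnat n hn
    obtain ⟨w, hw⟩ : ∃ w : (Module.End K V)ˣ, w = u ^ n := ⟨_, rfl⟩
    rw [← hw] at h3
    have hwN : Commute (w : Module.End K V) N := by
      rw [h3]
      exact (Commute.one_left N).add_left ((Commute.refl N).mul_left (h1 N (Commute.refl N)).symm)
    have hwi : Commute ((w⁻¹ : (Module.End K V)ˣ) : Module.End K V) N := hwN.units_inv_left
    refine ⟨-(((w⁻¹ : (Module.End K V)ˣ) : Module.End K V) * g), ?_, ?_, ?_⟩
    · intro X hX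
      refine Commute.neg_right (Commute.mul_right ?_ (h1 X hX))
      refine Commute.units_inv_right ?_
      rw [h3]
      exact (Commute.one_right X).add_right (hX.mul_right (h1 X hX))
    · intro a c hac
      rw [LinearMap.neg_apply, LinearMap.neg_apply, neg_inj, Module.End.mul_apply,
        Module.End.mul_apply] at hac
      have h4 : ∀ v, (w : Module.End K V) (((w⁻¹ : (Module.End K V)ˣ) : Module.End K V) v) = v := by
        intro v
        rw [← Module.End.mul_apply, w.mul_inv, Module.End.one_apply]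
      exact h2 (by rw [← h4 (g a), hac, h4])
    · rw [zpow_neg, zpow_natCast, ← hw]
      have h4 : ((w⁻¹ : (Module.End K V)ˣ) : Module.End K V) * (1 + N * g) = 1 := by
        rw [← h3]
        exact w.inv_mul
      have h5 : N * (((w⁻¹ : (Module.End K V)ˣ) : Module.End K V) * g) =
          ((w⁻¹ : (Module.End K V)ˣ) : Module.End K V) * (N * g) := by
        rw [← mul_assoc, ← hwi.eq, mul_assoc]
      rw [mul_neg, h5, ← sub_eq_add_neg, eq_sub_iff_add_eq, ← h4, mul_add, mul_one]

end Pool.Agent.Helper40.JL
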