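import Pool.Agent.Helper40.JL.Young1
import Pool.Agent.Helper40.LL.Main

/-!
# Jordan types at one eigenvalue: the inequality (helper40)
-/

set_option autoImplicit false

namespace Pool.Agent.Helper40.JL

open Polynomial Pool.Agent.Helper40.ZO Pool.Agent.Helper40.LL MeasureTheory

theorem exists_min_nat {α : Type*} {s : Set α} (hs : s.Nonempty) (f : α → ℕ) :
    ∃ a ∈ s, ∀ b ∈ s, f a ≤ f b := by
  obtain ⟨a, ha, hfa⟩ := Nat.sInf_mem (hs.image f)
  exact ⟨a, ha, fun b hb => hfa ▸ Nat.sInf_le ⟨b, hb, rfl⟩⟩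

section top

variable {P : Type*} [Group P] [TopologicalSpace P] [IsTopologicalGroup P]

/-- The closed subgroup generated by `A` and `x ^ 2` is open. -/
theorem open_sq {A : Subgroup P} (hA : A.Normal) {x : P}
    (h : IsOpen ((A ⊔ Subgroup.zpowers x).topologicalClosure : Set P)) :
    IsOpen ((A ⊔ Subgroup.zpowers (x ^ 2)).topologicalClosure : Set P) := by
  obtain ⟨H, hH⟩ : ∃ H : Subgroup P, H = (A ⊔ Subgroup.zpowers (x ^ 2)).topologicalClosure :=
    ⟨_, rfl⟩
  have hHc : IsClosed (H : Set P) := by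
    rw [hH]
    exact Subgroup.isClosed_topologicalClosure _
  have hle : A ⊔ Subgroup.zpowers (x ^ 2) ≤ H := by
    rw [hH]
    exact Subgroup.le_topologicalClosure _
  have hcl2 : IsClosed {z : P | z * x⁻¹ ∈ H} :=
    hHc.preimage (continuous_id.mul continuous_const)
  have h1 : ((A ⊔ Subgroup.zpowers x : Subgroup P) : Set P) ⊆
      (H : Set P) ∪ {z : P | z * x⁻¹ ∈ H} := by
    intro z hz
    haveI := hA
    obtain ⟨a, ha, w, hw, rfl⟩ := Subgroup.mem_sup_of_normal_left.1 hz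
    obtain ⟨k, rfl⟩ := Subgroup.mem_zpowers_iff.1 hw
    have h2 : ∀ t : ℤ, a * (x ^ 2) ^ t ∈ H := fun t =>
      hle (Subgroup.mul_mem_sup ha (Subgroup.zpow_mem _ (Subgroup.mem_zpowers _) t))
    have h3 : ∀ t : ℤ, (x ^ 2) ^ t = x ^ (2 * t) := by
      intro t
      rw [zpow_mul]
      norm_cast
    rcases Int.even_or_odd' k with ⟨t, rfl | rfl⟩
    · left
      have h4 := h2 t
      rw [h3] at h4
      exact h4
    · right
      have h4 := h2 t
      rw [h3] at h4
      change a * x ^ (2 * t + 1) * x⁻¹ ∈ H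
      rw [zpow_add, zpow_one, ← mul_assoc, mul_inv_cancel_right]
      exact h4
  have h2 : ((A ⊔ Subgroup.zpowers x).topologicalClosure : Set P) ⊆
      (H : Set P) ∪ {z : P | z * x⁻¹ ∈ H} := by
    rw [Subgroup.topologicalClosure_coe]
    exact closure_minimal h1 (hHc.union hcl2)
  have h3 : (interior (H : Set P)).Nonempty := by
    by_contra hcon
    rw [Set.not_nonempty_iff_eq_empty] at hcon
    have h4 : interior {z : P | z * x⁻¹ ∈ H} = ∅ := by
      rw [← Set.not_nonempty_iff_eq_empty]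
      rintro ⟨z, hz⟩
      have h5 : IsOpen {w : P | w * x ∈ interior {z : P | z * x⁻¹ ∈ H}} :=
        isOpen_interior.preimage (continuous_id.mul continuous_const)
      have h6 : {w : P | w * x ∈ interior {z : P | z * x⁻¹ ∈ H}} ⊆ (H : Set P) := by
        intro w hw
        rw [Set.mem_setOf_eq] at hw
        have h7 := interior_subset hw
        rw [Set.mem_setOf_eq, mul_inv_cancel_right] at h7
        exact h7
      have h7 : z * x⁻¹ ∈ interior (H : Set P) := by
        refine interior_maximal h6 h5 ?_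
        rw [Set.mem_setOf_eq, inv_mul_cancel_right]
        exact hz
      rw [hcon] at h7
      exact h7
    have h5 := interior_union_isClosed_of_interior_empty hHc h4
    rw [hcon] at h5
    have h6 : (1 : P) ∈ interior ((H : Set P) ∪ {z : P | z * x⁻¹ ∈ H}) :=
      interior_maximal h2 h (Subgroup.one_mem _)
    rw [h5] at h6
    exact h6
  obtain ⟨u, hu⟩ := h3
  rw [← hH]
  exact Subgroup.isOpen_of_mem_nhds H (mem_interior_iff_mem_nhds.1 hu)

end top

variable {K V : Type*} [Field K] [AddCommGroup V] [Module K V] [FiniteDimensional K V]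

omit [FiniteDimensional K V] in
/-- The restriction is semisimple under the whole group. -/
theorem subRep_ss {G : Type*} [Group G] (ρ : G →* Module.End K V) (H : Subgroup G)
    (U : Submodule K V) (h : ∀ g ∈ H, ∀ v ∈ U, ρ g v ∈ U)
    (hc : ∀ W : Submodule K V, W ≤ U → (∀ g ∈ H, ∀ v ∈ W, ρ g v ∈ W) →
      ∃ W' : Submodule K V, (∀ g ∈ H, ∀ v ∈ W', ρ g v ∈ W') ∧ W ⊓ W' = ⊥ ∧ U ≤ W ⊔ W') :
    ActsSemisimply (subRep ρ H U h '' (Set.univ : Set H)) := by
  intro W₁ hW₁
  obtain ⟨W', h1, h2, h2'⟩ := hc (W₁.map U.subtype) (by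
    rintro _ ⟨v, -, rfl⟩
    exact v.2) (by
    rintro g hg _ ⟨v, hv, rfl⟩
    exact ⟨_, hW₁ _ ⟨⟨g, hg⟩, Set.mem_univ _, rfl⟩ v hv, rfl⟩)
  refine ⟨W'.comap U.subtype, ?_, ?_⟩
  · rintro _ ⟨g, -, rfl⟩ v hv
    exact h1 g g.2 _ hv
  · rw [isCompl_iff, disjoint_iff, codisjoint_iff]
    constructor
    · rw [eq_bot_iff]
      rintro v ⟨hv1, hv2⟩
      have h3 : (v : V) ∈ W₁.map U.subtype ⊓ W' := ⟨⟨v, hv1, rfl⟩, hv2⟩
      rw [h2, Submodule.mem_bot] at h3
      rw [Submodule.mem_bot]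
      exact Subtype.ext h3
    · rw [eq_top_iff]
      intro v _
      obtain ⟨_, ⟨a, ha, rfl⟩, c, hc', hac⟩ := Submodule.mem_sup.1 (h2' v.2)
      have hcU : c ∈ U := by
        have h3 : c = (v : V) - a := by
          rw [← hac]
          change c = (a : V) + c - a
          abel
        rw [h3]
        exact U.sub_mem v.2 a.2
      have h3 : v = a + ⟨c, hcU⟩ := Subtype.ext hac.symm
      rw [h3]
      exact Submodule.add_mem_sup ha hc'

variable [IsAlgClosed K] [CharZero K]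

variable {P : Type*} [Group P] [TopologicalSpace P] [IsTopologicalGroup P] [CompactSpace P]
  [TotallyDisconnectedSpace P] [TopologicalSpace K] [IsTopologicalRing K] [T2Space K]

/-- The inequality on a relatively semisimple subspace. -/
theorem ker_ge_sub (ρ : P →* Module.End K V)
    (hρ : ∀ (v : V) (f : Module.Dual K V), Continuous fun x => f (ρ x v)) {N H : Subgroup P}
    [hNn : N.Normal] (hNo : IsOpen (N : Set P)) (hopen : IsOpen (H : Set P)) {U : Submodule K V}
    (hU : ∀ g ∈ H, ∀ v ∈ U, ρ g v ∈ U)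
    (hc : ∀ W : Submodule K V, W ≤ U → (∀ g ∈ H, ∀ v ∈ W, ρ g v ∈ W) →
      ∃ W' : Submodule K V, (∀ g ∈ H, ∀ v ∈ W', ρ g v ∈ W') ∧ W ⊓ W' = ⊥ ∧ U ≤ W ⊔ W')
    {x : P} (hx : x ∈ H) {l : K} {k m : ℕ} (hk : Module.finrank K V ≤ k)
    (hm : ∀ g ∈ N ⊓ H, m ≤ Module.finrank K
      (LinearMap.ker (aeval (ρ (g * x)) ((X - C l) ^ k)) ⊓ U : Submodule K V)) :
    ∀ g ∈ N ⊓ H, m ≤ Module.finrank K
      (LinearMap.ker (ρ (g * x) - algebraMap K (Module.End K V) l) ⊓ U : Submodule K V) := by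
  have hHcl : IsClosed (H : Set P) := Subgroup.isClosed_of_isOpen H hopen
  haveI : CompactSpace H := isCompact_iff_compactSpace.1 hHcl.isCompact
  intro g hg
  have hgx : g * x ∈ H := H.mul_mem hg.2 hx
  have hBn : (N.subgroupOf H).Normal := Subgroup.normal_subgroupOf
  have hBo : IsOpen ((N.subgroupOf H : Subgroup H) : Set H) :=
    hNo.preimage continuous_subtype_val
  have hge := ker_ge (subRep ρ H U hU) (subRep_continuous ρ hρ H U hU)
    (subRep_ss ρ H U hU hc)
    (B := N.subgroupOf H) (x := ⟨g * x, hgx⟩)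
    (Subgroup.isOpen_mono (le_sup_left.trans (Subgroup.le_topologicalClosure _)) hBo)
    (L := {l}) (m := m) (by
      rintro ⟨g', hg'⟩ hg''
      rw [Finset.sum_singleton]
      have h3 := hm (g' * g) ⟨N.mul_mem hg'' hg.1, H.mul_mem hg' hg.2⟩
      have hmem : g' * (g * x) ∈ H := H.mul_mem hg' hgx
      have h4 := mult_restrict (A := ρ (g' * (g * x))) (hU _ hmem) l hk
      have h5 : subRep ρ H U hU (⟨g', hg'⟩ * ⟨g * x, hgx⟩) =
          (ρ (g' * (g * x))).restrict (hU _ hmem) := rfl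
      rw [h5, h4, ← mul_assoc]
      exact h3)
  rw [Finset.sum_singleton] at hge
  refine hge.trans ?_
  have h3 : (Module.End.eigenspace (subRep ρ H U hU ⟨g * x, hgx⟩) l).map U.subtype ≤
      LinearMap.ker (ρ (g * x) - algebraMap K (Module.End K V) l) ⊓ U := by
    rintro _ ⟨v, hv, rfl⟩
    refine ⟨?_, v.2⟩
    rw [SetLike.mem_coe, Module.End.mem_eigenspace_iff] at hv
    rw [SetLike.mem_coe, LinearMap.mem_ker, LinearMap.sub_apply, Module.algebraMap_end_apply,
      sub_eq_zero]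
    exact congrArg Subtype.val hv
  have h4 := Submodule.finrank_mono h3
  rwa [← LinearEquiv.finrank_eq (Submodule.equivMapOfInjective U.subtype
    U.injective_subtype _)] at h4

omit [IsAlgClosed K] [CharZero K] [IsTopologicalRing K] in
/-- A generic element of a dense subgroup. -/
theorem exists_generic {n : ℕ} {ρ' : P →* Mat n K}
    (hvalc : ∀ f : MvPolynomial (Fin n × Fin n) K, Continuous fun y => val (ρ' y) f)
    {N : Subgroup P} (hNo : IsOpen (N : Set P))
    (hnull : ∀ (μ : @Measure P (borel P)), @Measure.IsHaarMeasure P _ _ (borel P) μ →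
      ∀ (D : MvPolynomial (Fin n × Fin n) K) (x₀ : P), val (ρ' x₀) D ≠ 0 →
        μ {z | z * x₀⁻¹ ∈ N ∧ val (ρ' z) D = 0} = 0)
    {r : ℕ} (E : Fin r → MvPolynomial (Fin n × Fin n) K) {x : P}
    (h : ∀ i, ∃ z, z * x⁻¹ ∈ N ∧ val (ρ' z) (E i) ≠ 0) {B : Subgroup P}
    (hB : IsOpen (B.topologicalClosure : Set P)) :
    ∃ g ∈ B, g ∈ N ∧ ∀ i, val (ρ' (g * x)) (E i) ≠ 0 := by
  letI : MeasurableSpace P := borel P
  haveI : BorelSpace P := ⟨rfl⟩
  let μ : Measure P := Measure.haarMeasure ⊤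
  obtain ⟨H, hH⟩ : ∃ H : Subgroup P, H = B.topologicalClosure := ⟨_, rfl⟩
  rw [← hH] at hB
  choose z hz hzE using h
  have hn : ∀ i, μ {w | w * x⁻¹ ∈ N ∧ val (ρ' w) (E i) = 0} = 0 := by
    intro i
    refine measure_mono_null ?_ (hnull μ inferInstance (E i) (z i) (hzE i))
    rintro w ⟨h1, h2⟩
    refine ⟨?_, h2⟩
    have h3 : w * (z i)⁻¹ = (w * x⁻¹) * (z i * x⁻¹)⁻¹ := by group
    rw [h3]
    exact N.mul_mem h1 (N.inv_mem (hz i))
  obtain ⟨w, hw, hwE⟩ : ∃ w, w * x⁻¹ ∈ N ⊓ H ∧ ∀ i, val (ρ' w) (E i) ≠ 0 := by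
    by_contra hcon
    push Not at hcon
    have h3 : {w : P | w * x⁻¹ ∈ N ⊓ H} ⊆
        ⋃ i, {w | w * x⁻¹ ∈ N ∧ val (ρ' w) (E i) = 0} := by
      intro w hw
      obtain ⟨i, hi⟩ := hcon w hw
      exact Set.mem_iUnion.2 ⟨i, hw.1, hi⟩
    have h4 : μ {w : P | w * x⁻¹ ∈ N ⊓ H} = 0 :=
      measure_mono_null h3 (measure_iUnion_null hn)
    have h5 : IsOpen {w : P | w * x⁻¹ ∈ N ⊓ H} :=
      (hNo.inter hB).preimage (continuous_id.mul continuous_const)
    exact (h5.measure_pos μ ⟨x, by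
      rw [Set.mem_setOf_eq, mul_inv_cancel]
      exact (N ⊓ H).one_mem⟩).ne' h4
  have hO : IsOpen {g : P | g ∈ N ∧ ∀ i, val (ρ' (g * x)) (E i) ≠ 0} := by
    have h1 : {g : P | g ∈ N ∧ ∀ i, val (ρ' (g * x)) (E i) ≠ 0} =
        (N : Set P) ∩ ⋂ i, {g | val (ρ' (g * x)) (E i) ≠ 0} := by
      ext g
      simp
    rw [h1]
    refine hNo.inter (isOpen_iInter_of_finite fun i => ?_)
    have h2 : Continuous fun g : P => val (ρ' (g * x)) (E i) :=
      (hvalc (E i)).comp (continuous_id.mul continuous_const)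
    exact isOpen_ne_fun h2 continuous_const
  have hwcl : w * x⁻¹ ∈ closure (B : Set P) := by
    have h1 := hw.2
    rw [hH] at h1
    exact h1
  obtain ⟨g, hgO, hgB⟩ := mem_closure_iff.1 hwcl _ hO (by
    refine ⟨hw.1, fun i => ?_⟩
    rw [inv_mul_cancel_right]
    exact hwE i)
  exact ⟨g, hgB, hgO.1, hgO.2⟩

end Pool.Agent.Helper40.JL
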