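import Pool.Agent.Helper40.JL.Young2

/-!
# Jordan types at one eigenvalue: the law (helper40)
-/

set_option autoImplicit false

namespace Pool.Agent.Helper40.JL

open Polynomial Pool.Agent.Helper40.ZO Pool.Agent.Helper40.LL MeasureTheory

variable {K V : Type*} [Field K] [AddCommGroup V] [Module K V] [FiniteDimensional K V]

theorem stable_zpow {Θ : (Module.End K V)ˣ} {W : Submodule K V}
    (hW : ∀ v ∈ W, (Θ : Module.End K V) v ∈ W) (s : ℤ) :
    ∀ v ∈ W, ((Θ ^ s : (Module.End K V)ˣ) : Module.End K V) v ∈ W := by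
  have hnat : ∀ (u : (Module.End K V)ˣ), (∀ v ∈ W, (u : Module.End K V) v ∈ W) →
      ∀ (n : ℕ), ∀ v ∈ W, ((u ^ n : (Module.End K V)ˣ) : Module.End K V) v ∈ W := by
    intro u hu n
    induction n with
    | zero =>
      intro v hv
      rw [pow_zero, Units.val_one, Module.End.one_apply]
      exact hv
    | succ n ih =>
      intro v hv
      rw [pow_succ, Units.val_mul, Module.End.mul_apply]
      exact ih _ (hu v hv)
  have hinv : ∀ v ∈ W, ((Θ⁻¹ : (Module.End K V)ˣ) : Module.End K V) v ∈ W :=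
    stable_inv Θ.inv_mul Θ.mul_inv hW
  obtain ⟨n, rfl | rfl⟩ := s.eq_nat_or_neg
  · rw [zpow_natCast]
    exact hnat Θ hW n
  · rw [zpow_neg, zpow_natCast, ← inv_pow]
    exact hnat Θ⁻¹ hinv n

variable [IsAlgClosed K] [CharZero K]

variable {P : Type*} [Group P] [TopologicalSpace P] [IsTopologicalGroup P] [CompactSpace P]
  [TotallyDisconnectedSpace P] [TopologicalSpace K] [IsTopologicalRing K] [T2Space K]

/-- The inequality between the Jordan type of `x` and the generic one. -/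
theorem core (ρ : P →* Module.End K V)
    (hρ : ∀ (v : V) (f : Module.Dual K V), Continuous fun x => f (ρ x v)) {n : ℕ}
    (b : Module.Basis (Fin n) K V) {ρ' : P →* Mat n K}
    (hρ'x : ∀ x, ρ' x = LinearMap.toMatrix b b (ρ x))
    (hvalc : ∀ f : MvPolynomial (Fin n × Fin n) K, Continuous fun y => val (ρ' y) f)
    {N : Subgroup P} [hNn : N.Normal] (hNo : IsOpen (N : Set P))
    (hnull : ∀ (μ : @Measure P (borel P)), @Measure.IsHaarMeasure P _ _ (borel P) μ →
      ∀ (D : MvPolynomial (Fin n × Fin n) K) (x₀ : P), val (ρ' x₀) D ≠ 0 →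
        μ {z | z * x₀⁻¹ ∈ N ∧ val (ρ' z) D = 0} = 0)
    {A : Subgroup P} (hAn : A.Normal) (hA : ActsSemisimply (ρ '' (A : Set P))) {x : P} {l : K}
    (hopen : IsOpen ((A ⊔ Subgroup.zpowers x).topologicalClosure : Set P)) {κ : ℕ → ℕ}
    (hκ : ∀ (j : ℕ) (z : P), z * x⁻¹ ∈ N →
      κ j ≤ Module.finrank K (LinearMap.ker ((ρ z - algebraMap K (Module.End K V) l) ^ j)))
    (hκ' : ∀ j : ℕ, ∃ z : P, z * x⁻¹ ∈ N ∧
      Module.finrank K (LinearMap.ker ((ρ z - algebraMap K (Module.End K V) l) ^ j)) ≤ κ j) :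
    ∃ X ∈ commutant ρ A, IsNilpotent X ∧ ∀ j : ℕ,
      κ (j + 1) ≤ κ j + Module.finrank K
        (LinearMap.ker (ρ x - algebraMap K (Module.End K V) l) ⊓
          (LinearMap.ker X ⊓ LinearMap.range (X ^ j)) : Submodule K V) ∧
      LinearMap.ker (ρ x - algebraMap K (Module.End K V) l) ⊓
          (LinearMap.ker X ⊓ LinearMap.range (X ^ j)) ≤
        LinearMap.ker (ρ x - algebraMap K (Module.End K V) l) ⊓
          LinearMap.range ((ρ x - algebraMap K (Module.End K V) l) ^ j) := by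
  classical
  have hn : Module.finrank K V = n := by
    rw [Module.finrank_eq_card_basis b, Fintype.card_fin]
  have hy : ∀ a ∈ A, x⁻¹ * a * x ∈ A := fun a ha => by
    have := hAn.conj_mem a ha x⁻¹
    rwa [inv_inv] at this
  have hy' : ∀ a ∈ A, x * a * x⁻¹ ∈ A := fun a ha => hAn.conj_mem a ha x
  obtain ⟨θ, X, hXC, hX, hxX, hθX, hxθ, hθinj, hcompl⟩ := exists_twist ρ hy hy' hA
  obtain ⟨H, hH⟩ : ∃ H : Subgroup P, H = (A ⊔ Subgroup.zpowers x).topologicalClosure := ⟨_, rfl⟩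
  have hHo := hopen
  rw [← hH] at hHo
  have hAH : A ≤ H := by
    rw [hH]
    exact le_sup_left.trans (Subgroup.le_topologicalClosure _)
  have hxH : x ∈ H := by
    rw [hH]
    exact (le_sup_right.trans (Subgroup.le_topologicalClosure _)) (Subgroup.mem_zpowers x)
  have hstab : ∀ W : Submodule K V, Stable (ρ '' (A : Set P)) W → (∀ v ∈ W, ρ x v ∈ W) →
      ∀ g ∈ H, ∀ v ∈ W, ρ g v ∈ W := by
    intro W h1 h2 g hg
    have h3 := stable_closure ρ hρ (stable_sup' ρ h1 (stable_zpowers ρ h2))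
    refine h3 _ ⟨g, ?_, rfl⟩
    rw [← Subgroup.topologicalClosure_coe, ← hH]
    exact hg
  -- the subspaces `U j`
  obtain ⟨U, hU⟩ : ∃ U : ℕ → Submodule K V, ∀ j, U j = LinearMap.ker X ⊓ LinearMap.range (X ^ j) :=
    ⟨_, fun _ => rfl⟩
  have hcommU : ∀ s : Module.End K V, Commute s X → ∀ j, ∀ v ∈ U j, s v ∈ U j := by
    intro s hs j v hv
    rw [hU] at hv ⊢
    obtain ⟨hv1, w, hw⟩ := hv
    refine ⟨?_, s w, ?_⟩
    · have h1 := LinearMap.congr_fun hs.eq v
      rw [Module.End.mul_apply, Module.End.mul_apply, LinearMap.mem_ker.1 hv1, map_zero] at h1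
      exact h1.symm
    · have h1 := LinearMap.congr_fun (hs.pow_right j).eq w
      rw [Module.End.mul_apply, Module.End.mul_apply, hw] at h1
      exact h1.symm
  have hUA : ∀ j, Stable (ρ '' (A : Set P)) (U j) := by
    rintro j _ ⟨a, ha, rfl⟩
    exact hcommU _ (hXC a ha) j
  have hUθ : ∀ j, ∀ v ∈ U j, θ v ∈ U j := hcommU θ hθX
  have hUx : ∀ j, ∀ v ∈ U j, ρ x v ∈ U j := hcommU _ hxX
  have hxker : ∀ v, X v = 0 → ρ x v = θ v := by
    intro v hv
    rw [hxθ, Module.End.mul_apply, LinearMap.add_apply, Module.End.one_apply, hv, add_zero]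
  have hUker : ∀ j, ∀ v ∈ U j, X v = 0 := by
    intro j v hv
    rw [hU] at hv
    exact hv.1
  have hUH : ∀ j, ∀ g ∈ H, ∀ v ∈ U j, ρ g v ∈ U j := fun j => hstab (U j) (hUA j) (hUx j)
  have hUc : ∀ j, ∀ W : Submodule K V, W ≤ U j → (∀ g ∈ H, ∀ v ∈ W, ρ g v ∈ W) →
      ∃ W' : Submodule K V, (∀ g ∈ H, ∀ v ∈ W', ρ g v ∈ W') ∧ W ⊓ W' = ⊥ ∧ U j ≤ W ⊔ W' := by
    intro j W hWU hWH
    obtain ⟨W', h1, h2, h3⟩ := hcompl W (by
      rintro _ ⟨a, ha, rfl⟩
      exact hWH a (hAH ha)) (by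
      intro v hv
      rw [← hxker v (hUker j v (hWU hv))]
      exact hWH x hxH v hv)
    refine ⟨W' ⊓ U j, hstab _ ?_ ?_, ?_, ?_⟩
    · rintro Y hY v ⟨hv1, hv2⟩
      exact ⟨h1 Y hY v hv1, hUA j Y hY v hv2⟩
    · rintro v ⟨hv1, hv2⟩
      refine ⟨?_, hUx j v hv2⟩
      rw [hxker v (hUker j v hv2)]
      exact h2 v hv1
    · rw [← inf_assoc, h3.inf_eq_bot, bot_inf_eq]
    · rw [← sup_inf_assoc_of_le _ hWU, h3.sup_eq_top, top_inf_eq]
  obtain ⟨Q, hQ⟩ : ∃ Q : K[X], Q = (Polynomial.X - C l) ^ (n + 2) := ⟨_, rfl⟩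
  have hker : ∀ j m : ℕ, (∀ g ∈ N ⊓ H, m ≤ Module.finrank K
        (LinearMap.ker (aeval (ρ (g * x)) Q) ⊓ U j : Submodule K V)) →
      ∀ g ∈ N ⊓ H, m ≤ Module.finrank K
        (LinearMap.ker (ρ (g * x) - algebraMap K (Module.End K V) l) ⊓ U j : Submodule K V) := by
    intro j m hm
    exact ker_ge_sub ρ hρ hNo hHo (hUH j) (hUc j) hxH (k := n + 2) (by rw [hn]; omega)
      (by rw [hQ] at hm; exact hm)
  refine ⟨X, hXC, hX, fun j => ⟨?_, blocks_ge ρ hXC hxX hθX hxθ hθinj hcompl l j⟩⟩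
  rw [← hU]
  -- the generic element
  obtain ⟨g₁, hg₁, hmin₁⟩ := exists_min_nat (s := ((N ⊓ H : Subgroup P) : Set P))
    ⟨1, (N ⊓ H).one_mem⟩ (fun g => Module.finrank K
      (LinearMap.ker (aeval (ρ (g * x)) Q) ⊓ U j : Submodule K V))
  obtain ⟨g₂, hg₂, hmin₂⟩ := exists_min_nat (s := ((N ⊓ H : Subgroup P) : Set P))
    ⟨1, (N ⊓ H).one_mem⟩ (fun g => Module.finrank K
      (LinearMap.ker (aeval (ρ (g * x)) Q) ⊓ U 0 : Submodule K V))
  obtain ⟨z₀, hz₀, hκz₀⟩ := hκ' j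
  obtain ⟨E0, hE0, hE0'⟩ := ker_open b ((Polynomial.X - C l) ^ j) ⊤ (ρ z₀)
  obtain ⟨E1, hE1, hE1'⟩ := ker_open b Q (U j) (ρ (g₁ * x))
  obtain ⟨E2, hE2, hE2'⟩ := ker_open b Q (U 0) (ρ (g₂ * x))
  rw [← hρ'x] at hE0 hE1 hE2
  obtain ⟨g, hgB, hgN, hgE⟩ := exists_generic hvalc hNo hnull ![E0, E1, E2] (x := x) (by
    intro i
    fin_cases i
    · exact ⟨z₀, hz₀, hE0⟩
    · exact ⟨g₁ * x, by rw [mul_inv_cancel_right]; exact hg₁.1, hE1⟩
    · exact ⟨g₂ * x, by rw [mul_inv_cancel_right]; exact hg₂.1, hE2⟩) (open_sq hAn hopen)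
  have hgE0 : val (ρ' (g * x)) E0 ≠ 0 := hgE 0
  have hgE1 : val (ρ' (g * x)) E1 ≠ 0 := hgE 1
  have hgE2 : val (ρ' (g * x)) E2 ≠ 0 := hgE 2
  rw [hρ'x] at hgE0 hgE1 hgE2
  have hgH : g ∈ H := by
    have h1 : A ⊔ Subgroup.zpowers (x ^ 2) ≤ H := by
      refine sup_le hAH ?_
      rw [Subgroup.zpowers_le]
      exact H.pow_mem hxH 2
    exact h1 hgB
  have hgNH : g ∈ N ⊓ H := ⟨hgN, hgH⟩
  obtain ⟨a, t, ha, hgx⟩ : ∃ (a : P) (t : ℤ), a ∈ A ∧ g * x = a * x ^ (2 * t + 1) := by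
    haveI := hAn
    obtain ⟨a, ha, w, hw, hgw⟩ := Subgroup.mem_sup_of_normal_left.1 hgB
    obtain ⟨t, rfl⟩ := Subgroup.mem_zpowers_iff.1 hw
    refine ⟨a, t, ha, ?_⟩
    have h3 : (x ^ 2) ^ t = x ^ (2 * t) := by
      rw [zpow_mul]
      norm_cast
    rw [← hgw, h3, zpow_add, zpow_one, mul_assoc]
  obtain ⟨y, hyd⟩ : ∃ y, y = g * x := ⟨_, rfl⟩
  rw [← hyd] at hgE0 hgE1 hgE2 hgx
  -- the units
  obtain ⟨Θ, hΘ⟩ : IsUnit θ := by
    rw [LinearMap.isUnit_iff_ker_eq_bot]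
    exact LinearMap.ker_eq_bot.2 hθinj
  obtain ⟨u, hu⟩ := hX.isUnit_one_add
  have hΘu : Commute Θ u := by
    apply Units.ext
    rw [Units.val_mul, Units.val_mul, hΘ, hu, mul_add, add_mul, mul_one, one_mul, hθX]
  obtain ⟨g', hg'1, hg'2, hg'3⟩ := unip_zpow hX hu (s := 2 * t + 1) (by omega)
  obtain ⟨θy, hθy⟩ : ∃ θy : Module.End K V,
      θy = ρ a * ((Θ ^ (2 * t + 1) : (Module.End K V)ˣ) : Module.End K V) := ⟨_, rfl⟩
  have hxu : ρ.toHomUnits x = Θ * u := by
    apply Units.ext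
    rw [Units.val_mul, hΘ, hu, ← hxθ]
    rfl
  have hTy : ρ y = θy * (1 + X * g') := by
    have h1 : ρ (x ^ (2 * t + 1)) =
        ((Θ ^ (2 * t + 1) : (Module.End K V)ˣ) : Module.End K V) * (1 + X * g') := by
      rw [← hg'3, ← Units.val_mul, ← hΘu.mul_zpow, ← hxu, ← map_zpow]
      rfl
    rw [hgx, map_mul, h1, hθy, mul_assoc]
  have hΘX : Commute ((Θ : (Module.End K V)ˣ) : Module.End K V) X := by
    rw [hΘ]
    exact hθX
  have hθyX : Commute θy X := by
    rw [hθy]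
    exact Commute.mul_left (hXC a ha) (hΘX.units_zpow_left _)
  have hθyinj : Function.Injective θy := by
    have h1 : IsUnit θy := by
      rw [hθy]
      exact IsUnit.mul (ρ.toHomUnits a).isUnit (Units.isUnit _)
    rw [LinearMap.isUnit_iff_ker_eq_bot] at h1
    exact LinearMap.ker_eq_bot.1 h1
  have hXg' : Commute X g' := hg'1 X (Commute.refl X)
  have hyker : ∀ v, X v = 0 → ρ y v = θy v := by
    intro v hv
    have h1 : X (g' v) = 0 := by
      rw [← Module.End.mul_apply, hXg'.eq, Module.End.mul_apply, hv, map_zero]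
    rw [hTy, Module.End.mul_apply, LinearMap.add_apply, Module.End.one_apply,
      Module.End.mul_apply, h1, add_zero]
  -- generic semisimplicity on the kernel of `X`
  have hss0 : LinearMap.ker (ρ y - algebraMap K (Module.End K V) l) ⊓ U 0 =
      LinearMap.ker (aeval (ρ y) Q) ⊓ U 0 := by
    refine Submodule.eq_of_le_of_finrank_le ?_ ?_
    · refine inf_le_inf_right _ ?_
      intro v hv
      rw [LinearMap.mem_ker] at hv ⊢
      rw [hQ, pow_succ, map_mul, Module.End.mul_apply, map_sub, aeval_X, aeval_C, hv, map_zero]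
    · refine (hE2' _ hgE2).trans ?_
      rw [hyd]
      exact hker 0 _ hmin₂ g hgNH
  have hU0 : ∀ v, X v = 0 → v ∈ U 0 := by
    intro v hv
    rw [hU]
    exact ⟨hv, v, by rw [pow_zero, Module.End.one_apply]⟩
  have hss : SSAt θy l := by
    refine ss_of_ker ρ hXC hX hθX hcompl hθyX.eq ?_ ?_
    · intro W h1 h2 v hv
      rw [hθy, Module.End.mul_apply]
      refine h1 _ ⟨a, ha, rfl⟩ _ (stable_zpow ?_ _ v hv)
      rw [hΘ]
      exact h2
    · intro v hXv hv
      have e1 : ∀ w, X w = 0 → (θy - algebraMap K (Module.End K V) l) w =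
          (ρ y - algebraMap K (Module.End K V) l) w := by
        intro w hw
        rw [LinearMap.sub_apply, LinearMap.sub_apply, hyker w hw]
      have e2 : X ((θy - algebraMap K (Module.End K V) l) v) = 0 := by
        have h1 : Commute (θy - algebraMap K (Module.End K V) l) X :=
          hθyX.sub_left (Algebra.commute_algebraMap_left l X)
        rw [← Module.End.mul_apply, ← h1.eq, Module.End.mul_apply, hXv, map_zero]
      rw [pow_two, Module.End.mul_apply, e1 _ e2, e1 v hXv] at hv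
      rw [e1 v hXv]
      have h2 : v ∈ LinearMap.ker (aeval (ρ y) Q) ⊓ U 0 := by
        refine ⟨?_, hU0 v hXv⟩
        rw [SetLike.mem_coe, LinearMap.mem_ker, hQ, pow_add, map_mul, Module.End.mul_apply,
          pow_two (Polynomial.X - C l), map_mul, Module.End.mul_apply, map_sub, aeval_X, aeval_C,
          hv, map_zero]
      rw [← hss0] at h2
      exact h2.1
  have hle := blocks_le hX hθyX hg'1 hg'2 hθyinj hTy hss j
  rw [← hU] at hle
  have hb1 := blocks_eq (ρ y - algebraMap K (Module.End K V) l) j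
  have hb2 := hκ (j + 1) y (by rw [hyd, mul_inv_cancel_right]; exact hgN)
  have hb3 : Module.finrank K
      (LinearMap.ker ((ρ y - algebraMap K (Module.End K V) l) ^ j)) ≤ κ j := by
    have h1 := hE0' _ hgE0
    rw [inf_top_eq, inf_top_eq, map_pow, map_sub, aeval_X, aeval_C, map_pow, map_sub, aeval_X,
      aeval_C] at h1
    exact h1.trans hκz₀
  have hb4 : Module.finrank K (LinearMap.ker (ρ y - algebraMap K (Module.End K V) l) ⊓
      LinearMap.range ((ρ y - algebraMap K (Module.End K V) l) ^ j) : Submodule K V) ≤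
      Module.finrank K (LinearMap.ker (aeval (ρ y) Q) ⊓ U j : Submodule K V) := by
    refine Submodule.finrank_mono (le_inf ?_ hle)
    refine inf_le_left.trans ?_
    intro v hv
    rw [LinearMap.mem_ker] at hv ⊢
    rw [hQ, pow_succ, map_mul, Module.End.mul_apply, map_sub, aeval_X, aeval_C, hv, map_zero]
  have hb5 := hE1' _ hgE1
  have hb6 := hker j _ hmin₁ 1 (N ⊓ H).one_mem
  rw [one_mul] at hb6
  omega

end Pool.Agent.Helper40.JL
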